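import Mathlib

/-! Definitions for the bound on the number of compositions of two polyominoes. -/

set_option autoImplicit false

namespace Pool.Agent.P.MP_d1c5d3_co.CM

open Finset

/-- Cells. -/
abbrev Pt := ℤ × ℤ

/-- The sup norm. -/
def nm (x : Pt) : ℤ := max |x.1| |x.2|

/-- The determinant. -/
def dt (x y : Pt) : ℤ := x.1 * y.2 - x.2 * y.1

/-- Lazy nearest neighbour walks. -/
def Wk (a : ℕ → Pt) : Prop := ∀ i, |(a (i + 1)).1 - (a i).1| + |(a (i + 1)).2 - (a i).2| ≤ 1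

/-- The sup ball. -/
noncomputable def ball (c : Pt) (r : ℤ) : Finset Pt :=
  Icc (c.1 - r) (c.1 + r) ×ˢ Icc (c.2 - r) (c.2 + r)

lemma nm_le (x : Pt) (r : ℤ) : nm x ≤ r ↔ |x.1| ≤ r ∧ |x.2| ≤ r := by simp [nm]

lemma nm_nonneg (x : Pt) : 0 ≤ nm x := le_max_of_le_left (abs_nonneg _)

lemma nm_add (x y : Pt) : nm (x + y) ≤ nm x + nm y := by
  rw [nm_le]
  have h1 := abs_add_le x.1 y.1
  have h2 := abs_add_le x.2 y.2
  have h3 := (nm_le x _).1 le_rfl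
  have h4 := (nm_le y _).1 le_rfl
  simp only [Prod.fst_add, Prod.snd_add]
  omega

lemma nm_neg (x : Pt) : nm (-x) = nm x := by simp [nm]

lemma nm_sub_comm (x y : Pt) : nm (x - y) = nm (y - x) := by rw [← nm_neg, neg_sub]

lemma nm_tri (x y z : Pt) : nm (x - z) ≤ nm (x - y) + nm (y - z) := by
  have := nm_add (x - y) (y - z)
  rwa [sub_add_sub_cancel] at this

lemma mem_ball (c z : Pt) (r : ℤ) : z ∈ ball c r ↔ nm (z - c) ≤ r := by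
  simp only [ball, mem_product, mem_Icc, nm_le, abs_le, Prod.fst_sub, Prod.snd_sub]
  omega

lemma card_ball (c : Pt) (r : ℤ) (hr : 0 ≤ r) : ((ball c r).card : ℤ) = (2 * r + 1) ^ 2 := by
  have h : ∀ t : ℤ, ((Icc (t - r) (t + r)).card : ℤ) = 2 * r + 1 := by
    intro t
    rw [Int.card_Icc, Int.toNat_of_nonneg (by omega)]
    ring
  rw [ball, card_product, Nat.cast_mul, h, h]
  ring

lemma dt_add (y x z : Pt) : dt y (x + z) = dt y x + dt y z := by simp [dt]; ring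

lemma dt_sub (y x z : Pt) : dt y (x - z) = dt y x - dt y z := by simp [dt]; ring

lemma dt_comm (x y : Pt) : dt x y = - dt y x := by simp [dt]; ring

lemma abs_dt_comm (x y : Pt) : |dt x y| = |dt y x| := by rw [dt_comm, abs_neg]

/-- The neighbourhood of a finite set. -/
noncomputable def nb (A : Finset Pt) (r : ℤ) : Finset Pt := A.biUnion fun c => ball c r

lemma mem_nb (A : Finset Pt) (r : ℤ) (z : Pt) : z ∈ nb A r ↔ ∃ c ∈ A, nm (z - c) ≤ r := by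
  simp [nb, mem_ball]

/-- A strip with centre `c` in direction `y`. -/
noncomputable def strip (c y : Pt) (R B : ℤ) : Finset Pt :=
  (ball c R).filter fun z => |dt y (z - c)| ≤ B

lemma mem_strip (c y z : Pt) (R B : ℤ) :
    z ∈ strip c y R B ↔ nm (z - c) ≤ R ∧ |dt y (z - c)| ≤ B := by
  simp [strip, mem_ball]

/-- Connected sets of cells. -/
def Conn (A : Finset Pt) : Prop :=
  ((SimpleGraph.fromRel (fun p q : Pt => |p.1 - q.1| + |p.2 - q.2| = 1)).induce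
    (↑A : Set Pt)).Connected

/-- The translations that place `Q` beside `P`. -/
def comps (P Q : Finset Pt) : Set Pt :=
  {v | (∀ p ∈ P, ∀ q ∈ Q, p ≠ q + v) ∧
    ∃ p ∈ P, ∃ q ∈ Q, |p.1 - (q + v).1| + |p.2 - (q + v).2| = 1}

/-- The lower left corner of the cell spanned by the steps `e`, `f` at `P`. -/
def cor (P e f : Pt) : Pt := (P.1 + min e.1 0 + min f.1 0, P.2 + min e.2 0 + min f.2 0)

/-- The signed sum of a test function over the cells of the sum of two walks. -/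
def WW (a b : ℕ → Pt) (m n : ℕ) (φ : Pt → ℤ) : ℤ :=
  ∑ i ∈ range m, ∑ j ∈ range n, dt (a (i + 1) - a i) (b (j + 1) - b j) *
    φ (cor (a i + b j) (a (i + 1) - a i) (b (j + 1) - b j))

/-- The winding number. -/
def wn (a b : ℕ → Pt) (m n : ℕ) (x : Pt) : ℤ := WW a b m n fun z => if z = x then 1 else 0

/-- The vertices of the boundary curve. -/
def Bd (a b : ℕ → Pt) (m n : ℕ) (z : Pt) : Prop :=
  (∃ i ≤ m, z = a i + b 0 ∨ z = a i + b n) ∨ ∃ j ≤ n, z = a 0 + b j ∨ z = a m + b j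

/-- Good blocks. -/
def Gd (a : ℕ → Pt) (ρ T : ℤ) (B : ℕ × ℕ) : Prop :=
  nm (a B.2 - a B.1) = ρ ∧ (B.2 : ℤ) - B.1 ≤ T * ρ

open Classical in
/-- Block systems. -/
def Bl (a : ℕ → Pt) (L : ℕ) (ρ T : ℤ) (bl : ℕ → ℕ × ℕ) : Prop :=
  (∀ s ≤ L, (bl s).1 ≤ s ∧ s ≤ (bl s).2 ∧ (bl s).2 ≤ L ∧
    ∀ i, (bl s).1 ≤ i → i ≤ (bl s).2 → nm (a i - a (bl s).1) ≤ ρ) ∧
  (((range (L + 1)).image bl).card : ℤ) * ρ ≤ L + ρ ∧
  ((((range (L + 1)).image bl).filter fun B => ¬ Gd a ρ T B).card : ℤ) * (T * ρ) ≤ L + T * ρ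

/-- The width of a pair of blocks. -/
def DD (a b : ℕ → Pt) (B C : ℕ × ℕ) : ℕ :=
  max ((Icc C.1 C.2).sup fun j => (dt (a B.2 - a B.1) (b j - b C.1)).natAbs)
    ((Icc B.1 B.2).sup fun i => (dt (a i - a B.1) (b C.2 - b C.1)).natAbs)

lemma DD_left (a b : ℕ → Pt) (B C : ℕ × ℕ) (j : ℕ) (h1 : C.1 ≤ j) (h2 : j ≤ C.2) :
    |dt (a B.2 - a B.1) (b j - b C.1)| ≤ DD a b B C := by
  rw [← Int.natCast_natAbs, Nat.cast_le]
  exact le_max_of_le_left (le_sup (f := fun j => (dt (a B.2 - a B.1) (b j - b C.1)).natAbs)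
    (mem_Icc.2 ⟨h1, h2⟩))

lemma DD_right (a b : ℕ → Pt) (B C : ℕ × ℕ) (i : ℕ) (h1 : B.1 ≤ i) (h2 : i ≤ B.2) :
    |dt (a i - a B.1) (b C.2 - b C.1)| ≤ DD a b B C := by
  rw [← Int.natCast_natAbs, Nat.cast_le]
  exact le_max_of_le_right (le_sup (f := fun i => (dt (a i - a B.1) (b C.2 - b C.1)).natAbs)
    (mem_Icc.2 ⟨h1, h2⟩))

lemma DD_att (a b : ℕ → Pt) (B C : ℕ × ℕ) (hB : B.1 ≤ B.2) (hC : C.1 ≤ C.2) :
    (∃ j, C.1 ≤ j ∧ j ≤ C.2 ∧ |dt (a B.2 - a B.1) (b j - b C.1)| = DD a b B C) ∨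
    ∃ i, B.1 ≤ i ∧ i ≤ B.2 ∧ |dt (a i - a B.1) (b C.2 - b C.1)| = DD a b B C := by
  obtain ⟨j, hj, ej⟩ := exists_mem_eq_sup (Icc C.1 C.2) (nonempty_Icc.2 hC)
    fun j => (dt (a B.2 - a B.1) (b j - b C.1)).natAbs
  obtain ⟨i, hi, ei⟩ := exists_mem_eq_sup (Icc B.1 B.2) (nonempty_Icc.2 hB)
    fun i => (dt (a i - a B.1) (b C.2 - b C.1)).natAbs
  rw [mem_Icc] at hi hj
  unfold DD
  rw [ej, ei]
  rcases max_choice (dt (a B.2 - a B.1) (b j - b C.1)).natAbs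
    (dt (a i - a B.1) (b C.2 - b C.1)).natAbs with h | h
  · exact Or.inl ⟨j, hj.1, hj.2, by rw [h, Int.natCast_natAbs]⟩
  · exact Or.inr ⟨i, hi.1, hi.2, by rw [h, Int.natCast_natAbs]⟩

/-- The point of a pair of positions. -/
def pt (a b : ℕ → Pt) (g : ℕ × ℕ) : Pt := a g.1 + b g.2

/-- The point of `g` is next to a point outside the sum set. -/
def Out (a b : ℕ → Pt) (L : ℕ) (g : ℕ × ℕ) : Prop :=
  ∃ z, nm (z - pt a b g) ≤ 1 ∧ ∀ i ≤ L, ∀ j ≤ L, z ≠ a i + b j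

/-- Directions and holes between the scales `r` and `ρ`. -/
def Lvl (G : Finset (ℕ × ℕ)) (x : ℕ × ℕ → Pt) (r ρ : ℤ) : Prop :=
  ∃ (u u' : ℕ → Pt) (D : ℕ × ℕ → ℤ) (H : ℕ × ℕ → Finset Pt), ∀ g ∈ G,
    nm (u g.1) = ρ ∧ nm (u' g.2) = ρ ∧ |dt (u g.1) (u' g.2)| ≤ D g ∧ ρ ≤ D g ∧
    8 * ρ * r ≤ 22 * D g ∧ D g ≤ 2 * (H g).card ∧ (∀ h ∈ H g, h ∉ nb (G.image x) (4 * r)) ∧
    ∀ y, nm y ≤ ρ → |dt y (u g.1)| ≤ 4 * D g → H g ⊆ strip (x g) y (4 * ρ) (22 * D g)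

/-- The potential inequality. -/
def Pot (G0 : Finset (ℕ × ℕ)) (x : ℕ × ℕ → Pt) (r : ℤ) (c : ℝ) : Prop :=
  ∀ (X Y : Finset ℕ) (G : Finset (ℕ × ℕ)), G ⊆ G0 → G ⊆ X ×ˢ Y →
    (G.card : ℝ) ^ 3 ≤ ((X.card : ℝ) * Y.card) ^ 2 * (nb (G.image x) (4 * r)).card * c

/-- The invariant of the comb construction. -/
def St (P Q V : Finset Pt) (a b : ℤ) : Prop :=
  Conn P ∧ Conn Q ∧ (∀ p ∈ P, |p.1| ≤ a ∧ |p.2| ≤ b) ∧ (∀ p ∈ Q, |p.1| ≤ a ∧ |p.2| ≤ b) ∧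
  (∀ p ∈ V, |p.1| ≤ a ∧ |p.2| ≤ b) ∧ (∀ v ∈ V, v ∈ comps P Q) ∧
  (∃ p0 ∈ P, ∀ v ∈ V, ∀ q ∈ Q, p0.1 < q.1 + v.1) ∧
  ∃ q0 ∈ Q, ∀ v ∈ V, ∀ p ∈ P, p.1 < q0.1 + v.1

end Pool.Agent.P.MP_d1c5d3_co.CM
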