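import Pool.Agent.P.MP_d1c5d3_co.CM.Base

/-! Statements of the steps. -/

set_option autoImplicit false

namespace Pool.Agent.P.MP_d1c5d3_co.CM

open Finset

-- deps:
def S_DET : Prop :=
  (∀ x y : Pt, |dt x y| ≤ 2 * nm x * nm y) ∧
  (∀ (u x y : Pt) (ρ : ℤ), 0 < ρ → nm u = ρ → nm x ≤ ρ → nm y ≤ ρ →
    |dt y x| ≤ |dt y u| + |dt u x|) ∧
  ∀ (u u' y z : Pt) (ρ D : ℤ), 0 < ρ → nm u = ρ → nm u' = ρ → nm y ≤ ρ → nm z ≤ ρ →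
    |dt u u'| ≤ D → 4 * D < |dt y u| → 4 * D < |dt z u| →
    (dt y u * dt z u < 0 ↔ dt y u' * dt z u' < 0)

-- deps:
def S_STRIP : Prop := ∀ (c y : Pt) (ρ R B : ℤ), 0 < ρ → ρ ≤ 2 * nm y → 0 ≤ R → 0 ≤ B →
  ((strip c y R B).card : ℤ) * ρ ≤ (2 * R + 1) * (4 * B + ρ)

-- deps: STRIP
def S_VIT : Prop := ∀ (G : Finset (ℕ × ℕ)) (x : ℕ × ℕ → Pt) (D : ℕ × ℕ → ℤ)
  (H : ℕ × ℕ → Finset Pt) (y : Pt) (ρ : ℤ), 0 < ρ → ρ ≤ 2 * nm y →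
  (∀ g ∈ G, ρ ≤ D g ∧ D g ≤ 2 * (H g).card ∧ H g ⊆ strip (x g) y (4 * ρ) (22 * D g)) →
  (G.biUnion fun g => strip (x g) y (4 * ρ) (22 * D g)).card ≤ 22050 * (G.biUnion H).card

-- deps: DET
def S_SPLIT : Prop := ∀ (G : Finset (ℕ × ℕ)) (u u' : ℕ → Pt) (D : ℕ × ℕ → ℤ) (ρ : ℤ), 0 < ρ →
  (∀ g ∈ G, nm (u g.1) = ρ ∧ nm (u' g.2) = ρ ∧ |dt (u g.1) (u' g.2)| ≤ D g ∧ ρ ≤ D g) →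
  (∃ y : Pt, nm y ≤ ρ ∧ ρ ≤ 2 * nm y ∧
    G.card ≤ 40 * (G.filter fun g => |dt y (u g.1)| ≤ 4 * D g).card) ∨
  ∃ (p p' : ℕ → Prop) (G0 G1 : Finset (ℕ × ℕ)), G0 ⊆ G ∧ G1 ⊆ G ∧ Disjoint G0 G1 ∧
    17 * G.card ≤ 40 * G0.card ∧ 17 * G.card ≤ 40 * G1.card ∧
    (∀ g ∈ G0, p g.1 ∧ p' g.2) ∧ ∀ g ∈ G1, ¬ p g.1 ∧ ¬ p' g.2

-- deps: DET VIT SPLIT
def S_STEP : Prop := ∀ (G0 : Finset (ℕ × ℕ)) (x : ℕ × ℕ → Pt) (r ρ : ℤ) (c : ℝ), 0 < r → r ≤ ρ →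
  0 ≤ c → Lvl G0 x r ρ → Pot G0 x r c → Pot G0 x ρ (c * (1 - 1 / 10 ^ 10))

-- deps:
def S_SHIFT : Prop := ∀ (a b : ℕ → Pt) (m n : ℕ) (φ : Pt → ℤ) (d : Pt), Wk a → Wk b →
  (d = (1, 0) ∨ d = (0, 1)) →
  (((∀ z, φ (z + (a m - a 0)) = φ z) ∧ ∀ z, φ (z + (b n - b 0)) = φ z) ∨
    ∀ γ z, Bd a b m n γ → nm (z - γ) ≤ 1 → φ z = 0) →
  WW a b m n (fun z => φ (z - d)) = WW a b m n φ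

-- deps:
def S_SUPP : Prop := ∀ (a b : ℕ → Pt) (m n : ℕ), Wk a → Wk b →
  (∀ x, wn a b m n x ≠ 0 → ∃ i ≤ m, ∃ j ≤ n, x = a i + b j) ∧
  WW a b m n (fun _ => 1) = dt (a m - a 0) (b n - b 0) ∧
  (∀ φ : Pt → ℤ, (∀ x, wn a b m n x ≠ 0 → φ x = 0) → WW a b m n φ = 0) ∧
  ∀ (κ : Type) (f : Pt → κ), (∀ (ξ : κ) (φ : Pt → ℤ), (∀ z, f z = ξ → φ z = 1) →
    (∀ z, f z ≠ ξ → φ z = 0) → WW a b m n φ = 0) → WW a b m n (fun _ => 1) = 0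

-- deps:
def S_IDX : Prop := ∀ (p q : Pt) (A : Finset Pt),
  (∀ z, ∃ x ∈ A, ∃ i j : ℤ, z = x + i • p + j • q) → |dt p q| ≤ A.card

-- deps: SHIFT SUPP IDX
def S_COS : Prop := ∀ (a b : ℕ → Pt) (m n : ℕ), Wk a → Wk b →
  ∃ A : Finset Pt, (∀ x ∈ A, wn a b m n x ≠ 0) ∧ |dt (a m - a 0) (b n - b 0)| ≤ A.card

-- deps:
def S_NBH : Prop := ∀ (a : ℕ → Pt) (m : ℕ) (r : ℤ), Wk a → 1 ≤ r →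
  ((nb ((range (m + 1)).image a) r).card : ℤ) ≤ 25 * r * (m + r)

-- deps: SHIFT SUPP COS NBH
def S_FILL : Prop := ∀ (a b : ℕ → Pt) (m n : ℕ) (r : ℤ), Wk a → Wk b → 0 ≤ r →
  ∃ H : Finset Pt, (∀ h ∈ H, ∀ z, nm (z - h) ≤ r → ∃ i ≤ m, ∃ j ≤ n, z = a i + b j) ∧
    |dt (a m - a 0) (b n - b 0)| ≤ H.card + 50 * (r + 1) * (m + n + 2 * (r + 1))

-- deps:
def S_BLK : Prop := ∀ (a : ℕ → Pt) (L : ℕ) (ρ T : ℤ), Wk a → 0 < ρ → 0 < T →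
  ∃ bl, Bl a L ρ T bl

-- deps:
def S_TOP : Prop := ∀ (a b : ℕ → Pt) (L : ℕ) (ρ T : ℤ) (ba bb : ℕ → ℕ × ℕ)
  (G : Finset (ℕ × ℕ)), 0 < ρ → 0 < T → T * ρ ≤ L → Bl a L ρ T ba → Bl b L ρ T bb →
  (∀ g ∈ G, g.1 ≤ L ∧ g.2 ≤ L) →
  ((nb (G.image (pt a b)) (4 * ρ)).card : ℤ) ≤ 676 * L ^ 2 ∧
  (Set.InjOn (pt a b) G → ((∀ g ∈ G, ¬ Gd a ρ T (ba g.1)) ∨ ∀ g ∈ G, ¬ Gd b ρ T (bb g.2)) →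
    (G.card : ℤ) * T ≤ 100 * L ^ 2)

-- deps: DET STRIP
def S_THIN : Prop := ∀ (a b : ℕ → Pt) (L : ℕ) (ρ T : ℤ) (ba bb : ℕ → ℕ × ℕ)
  (G : Finset (ℕ × ℕ)), 0 < ρ → 0 < T → T * ρ ≤ L → T ∣ ρ → Bl a L ρ T ba → Bl b L ρ T bb →
  Set.InjOn (pt a b) G →
  (∀ g ∈ G, g.1 ≤ L ∧ g.2 ≤ L ∧ Gd a ρ T (ba g.1) ∧ Gd b ρ T (bb g.2) ∧
    T * DD a b (ba g.1) (bb g.2) < ρ ^ 2) → (G.card : ℤ) * T ≤ 260 * L ^ 2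

-- deps: DET FILL
def S_LVL : Prop := ∀ (a b : ℕ → Pt) (L : ℕ) (r ρ T : ℤ) (ba bb : ℕ → ℕ × ℕ)
  (G : Finset (ℕ × ℕ)), Wk a → Wk b → 0 < r → 0 < T → 4096 * T ^ 2 * r ≤ ρ →
  Bl a L ρ T ba → Bl b L ρ T bb →
  (∀ g ∈ G, g.1 ≤ L ∧ g.2 ≤ L ∧ Out a b L g ∧ Gd a ρ T (ba g.1) ∧ Gd b ρ T (bb g.2) ∧
    ρ ^ 2 ≤ T * DD a b (ba g.1) (bb g.2)) → Lvl G (pt a b) r ρ

-- deps: STEP BLK TOP THIN LVL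
def S_WALK : Prop := ∀ (a b : ℕ → Pt) (L k : ℕ) (G : Finset (ℕ × ℕ)), Wk a → Wk b →
  2 ^ (k + k * (12 + 2 * k)) ≤ L → Set.InjOn (pt a b) G →
  (∀ g ∈ G, g.1 ≤ L ∧ g.2 ≤ L ∧ Out a b L g) →
  (G.card : ℝ) ≤ (L : ℝ) ^ 2 * (23 * (1 - 1 / 10 ^ 11) ^ k + 460 * k / 2 ^ k)

-- deps:
def S_TOUR : Prop := ∀ A : Finset Pt, Conn A →
  ∃ a : ℕ → Pt, Wk a ∧ (∀ i, a i ∈ A) ∧ ∀ p ∈ A, ∃ i ≤ 2 * A.card, a i = p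

-- deps:
def S_NUM : Prop := ∃ C c : ℝ, 0 < C ∧ 0 < c ∧ ∀ n : ℕ, 1 ≤ n → ∃ k : ℕ,
  2 ^ (k + k * (12 + 2 * k)) ≤ 2 * n ∧
  36 * (23 * (1 - 1 / 10 ^ 11 : ℝ) ^ k + 460 * k / 2 ^ k) ≤ C * Real.exp (-c * √(Real.log n))

-- deps: WALK TOUR NUM
def S_UP : Prop := ∃ C c : ℝ, 0 < C ∧ 0 < c ∧ ∀ n : ℕ, 1 ≤ n → ∀ P Q : Finset Pt, Conn P →
  Conn Q → P.card ≤ n → Q.card ≤ n → (comps P Q).Finite ∧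
  ((comps P Q).ncard : ℝ) ≤ C * (n : ℝ) ^ 2 * Real.exp (-c * √(Real.log n))

-- deps:
def S_CB : Prop :=
  (∀ P : Finset Pt, Conn P → Conn (P.image Prod.swap)) ∧
  (∀ M : ℕ, Conn ((range (M + 1)).image fun i : ℕ => ((0 : ℤ), (i : ℤ)))) ∧
  ∀ (P : Finset Pt) (p0 : Pt) (M : ℕ) (g h : ℤ), Conn P → p0 ∈ P → 0 ≤ g →
    ∃ P' : Finset Pt, Conn P' ∧
      (P'.card : ℤ) ≤ (M + 1) * (P.card + |h - p0.2| + 1) + M * g + 1 ∧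
      ∀ z : Pt, z ∈ P' ↔ (∃ i : ℕ, i ≤ M ∧ ((z.1 - i * g, z.2) ∈ P ∨
        (z.1 - i * g = p0.1 ∧ min p0.2 h ≤ z.2 ∧ z.2 ≤ max p0.2 h))) ∨
        (z.2 = h ∧ p0.1 ≤ z.1 ∧ z.1 ≤ p0.1 + M * g)

-- deps: CB
def S_COMB : Prop := ∀ (P Q V : Finset Pt) (a b : ℤ) (M : ℕ), St P Q V a b → 1 ≤ M →
  ∃ P' Q' V' : Finset Pt, St P' Q' V' (2 * b + 1) (M ^ 2 * (3 * a + 1)) ∧
    V'.card = M ^ 2 * V.card ∧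
    (P'.card : ℤ) ≤ M * (P.card + 3 * b + 2) + M ^ 2 * (3 * a + 1) + 1 ∧
    (Q'.card : ℤ) ≤ M * (Q.card + 3 * b + 2) + M ^ 2 * (3 * a + 1) + 1

-- deps: CB COMB
def S_LOW : Prop := ∀ M k : ℕ, 1 ≤ M → ∃ P Q V : Finset Pt, Conn P ∧ Conn Q ∧
  P.card ≤ (4 * M) ^ (k + 1) ∧ Q.card ≤ (4 * M) ^ (k + 1) ∧ (∀ v ∈ V, v ∈ comps P Q) ∧
  M ^ (2 * k + 1) ≤ V.card

-- deps: CB LOW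
def S_DOWN : Prop := ∃ C c : ℝ, 0 < C ∧ 0 < c ∧ ∀ n : ℕ, 1 ≤ n → ∃ P Q V : Finset Pt, Conn P ∧
  Conn Q ∧ P.card ≤ n ∧ Q.card ≤ n ∧ (∀ v ∈ V, v ∈ comps P Q) ∧
  c * (n : ℝ) ^ 2 * Real.exp (-C * √(Real.log n)) ≤ V.card

end Pool.Agent.P.MP_d1c5d3_co.CM
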