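import Pool.Agent.P.MP_d1c5d3_co.CM.Iface

/-! Step BLK. -/

set_option autoImplicit false

namespace Pool.Agent.P.MP_d1c5d3_co.CM

open Finset

lemma blk_step {a : ℕ → Pt} (h : Wk a) (i : ℕ) : nm (a (i + 1) - a i) ≤ 1 := by
  have := h i
  have := abs_nonneg ((a (i + 1)).1 - (a i).1)
  have := abs_nonneg ((a (i + 1)).2 - (a i).2)
  rw [nm_le, Prod.fst_sub, Prod.snd_sub]
  omega

lemma blk_len {a : ℕ → Pt} (h : Wk a) (s k : ℕ) : nm (a (s + k) - a s) ≤ k := by
  induction k with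
  | zero => simp [nm]
  | succ k ih =>
    have := nm_tri (a (s + k + 1)) (a (s + k)) (a s)
    have := blk_step h (s + k)
    rw [← add_assoc]
    omega

open Classical in
lemma blk_main {a : ℕ → Pt} (h : Wk a) (L : ℕ) {ρ T : ℤ} (hρ : 0 < ρ) (hT : 0 < T) (n : ℕ) :
    ∀ s0, s0 + n = L → ∃ F : Finset (ℕ × ℕ), (∀ s, s0 ≤ s → s ≤ L → ∃ B ∈ F, B.1 ≤ s ∧ s ≤ B.2 ∧
      B.2 ≤ L ∧ ∀ i, B.1 ≤ i → i ≤ B.2 → nm (a i - a B.1) ≤ ρ) ∧ (F.card : ℤ) * ρ ≤ n + ρ ∧
      ((F.filter fun B => ¬ Gd a ρ T B).card : ℤ) * (T * ρ) ≤ n + T * ρ := by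
  have hp := mul_pos hT hρ
  induction n using Nat.strong_induction_on with
  | _ n ih =>
    intro s0 e
    by_cases hx : ∃ k, s0 + k ≤ L ∧ ρ ≤ nm (a (s0 + k) - a s0)
    · have h1 := Nat.find_spec hx
      have h2 := fun m => Nat.find_min hx (m := m)
      generalize Nat.find hx = k at h1 h2
      have h3 := h1.2.trans (blk_len h s0 k)
      obtain ⟨k, rfl⟩ : ∃ j, k = j + 1 := ⟨k - 1, by omega⟩
      have h4 : ∀ m, m ≤ k → nm (a (s0 + m) - a s0) < ρ := fun m hm =>
        not_le.1 fun h' => h2 m (by omega) ⟨by omega, h'⟩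
      have h5 : nm (a (s0 + (k + 1)) - a s0) = ρ := by
        have := nm_tri (a (s0 + k + 1)) (a (s0 + k)) (a s0)
        have := blk_step h (s0 + k)
        have := h4 k le_rfl
        have := h1.2
        rw [← add_assoc] at *
        omega
      obtain ⟨m, rfl⟩ : ∃ m, n = m + (k + 1) := ⟨n - (k + 1), by omega⟩
      obtain ⟨F, f1, f2, f3⟩ := ih m (by omega) (s0 + (k + 1)) (by omega)
      refine ⟨insert (s0, s0 + (k + 1)) F, fun s hs hs' => ?_, ?_, ?_⟩
      · rcases le_total s (s0 + (k + 1)) with c | c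
        · refine ⟨_, mem_insert_self _ _, hs, c, h1.1, fun i hi hi' => ?_⟩
          obtain ⟨j, rfl⟩ := Nat.exists_eq_add_of_le hi
          rcases (show j ≤ k ∨ j = k + 1 by simp only at hi'; omega) with c | rfl
          exacts [(h4 j c).le, h5.le]
        · obtain ⟨B, hB, b⟩ := f1 s c hs'
          exact ⟨B, mem_insert_of_mem hB, b⟩
      · have : ((insert (s0, s0 + (k + 1)) F).card : ℤ) ≤ F.card + 1 := by
          exact_mod_cast card_insert_le _ _
        push_cast at h3 ⊢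
        nlinarith
      · rw [filter_insert]
        split_ifs with c
        · push_cast
          omega
        · have : ((insert (s0, s0 + (k + 1)) (F.filter fun B => ¬ Gd a ρ T B)).card : ℤ) ≤
            (F.filter fun B => ¬ Gd a ρ T B).card + 1 := by exact_mod_cast card_insert_le _ _
          have c' : T * ρ < k + 1 := not_le.1 fun h' => c ⟨h5, by push_cast; omega⟩
          push_cast
          nlinarith
    · refine ⟨{(s0, L)}, fun s hs hs' => ⟨_, mem_singleton_self _, hs, hs', le_rfl,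
        fun i hi hi' => ?_⟩, by simp, ?_⟩
      · obtain ⟨j, rfl⟩ := Nat.exists_eq_add_of_le hi
        exact (not_le.1 fun h' => hx ⟨j, hi', h'⟩).le
      · have : ((({(s0, L)} : Finset (ℕ × ℕ)).filter fun B => ¬ Gd a ρ T B).card : ℤ) ≤ 1 := by
          exact_mod_cast (card_filter_le _ _).trans (card_singleton _).le
        nlinarith

theorem p_BLK :
    S_BLK := by
  classical
  intro a L ρ T h hρ hT
  obtain ⟨F, f1, f2, f3⟩ := blk_main h L hρ hT L 0 (zero_add L)
  choose! bl b1 b2 using fun s => f1 s s.zero_le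
  have hs : (range (L + 1)).image bl ⊆ F :=
    image_subset_iff.2 fun s hs => b1 s (Nat.lt_succ_iff.1 (mem_range.1 hs))
  refine ⟨bl, b2, le_trans ?_ f2, le_trans ?_ f3⟩
  · gcongr
  · gcongr

end Pool.Agent.P.MP_d1c5d3_co.CM
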