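import Pool.Agent.P.MP_d1c5d3_co.CM.Iface

/-! Step CB. -/

set_option autoImplicit false

namespace Pool.Agent.P.MP_d1c5d3_co.CM

open Finset

/-- Adjacent cells of `A`. -/
def cb_R (A : Finset Pt) (p q : Pt) : Prop :=
  p ∈ A ∧ q ∈ A ∧ |p.1 - q.1| + |p.2 - q.2| = 1

/-- Joined inside `A`. -/
abbrev cb_J (A : Finset Pt) (p q : Pt) : Prop := Relation.ReflTransGen (cb_R A) p q

lemma cb_symm {A : Finset Pt} {p q : Pt} (h : cb_J A p q) : cb_J A q p := by
  induction h with
  | refl => exact Relation.ReflTransGen.refl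
  | @tail x y _ hxy ih =>
    obtain ⟨h1, h2, h3⟩ := hxy
    exact Relation.ReflTransGen.head
      ⟨h2, h1, by rw [abs_sub_comm y.1, abs_sub_comm y.2]; exact h3⟩ ih

lemma cb_of_conn {A : Finset Pt} (h : Conn A) {p q : Pt} (hp : p ∈ A) (hq : q ∈ A) :
    cb_J A p q := by
  have h1 := (SimpleGraph.reachable_iff_reflTransGen _ _).1
    (h.preconnected ⟨p, mem_coe.2 hp⟩ ⟨q, mem_coe.2 hq⟩)
  have h3 : ∀ u v : (↑A : Set Pt), Relation.ReflTransGen ((SimpleGraph.fromRel
      (fun p q : Pt => |p.1 - q.1| + |p.2 - q.2| = 1)).induce (↑A : Set Pt)).Adj u v →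
      cb_J A u.1 v.1 := by
    intro u v huv
    induction huv with
    | refl => exact Relation.ReflTransGen.refl
    | @tail x y _ hxy ih =>
      rw [SimpleGraph.induce_adj, SimpleGraph.fromRel_adj] at hxy
      refine ih.tail ⟨mem_coe.1 x.2, mem_coe.1 y.2, ?_⟩
      rcases hxy.2 with h2 | h2
      · exact h2
      · rw [abs_sub_comm x.1.1, abs_sub_comm x.1.2]; exact h2
  exact h3 _ _ h1

lemma cb_conn {A : Finset Pt} {c : Pt} (hc : c ∈ A) (h : ∀ p ∈ A, cb_J A c p) : Conn A := by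
  rw [Conn, SimpleGraph.connected_iff_exists_forall_reachable]
  refine ⟨⟨c, mem_coe.2 hc⟩, ?_⟩
  rintro ⟨p, hp⟩
  have h1 := h p (mem_coe.1 hp)
  induction h1 with
  | refl => exact SimpleGraph.Reachable.refl _
  | @tail x y hx hxy ih =>
    refine (ih (mem_coe.2 hxy.1)).trans (SimpleGraph.Adj.reachable ?_)
    rw [SimpleGraph.induce_adj, SimpleGraph.fromRel_adj]
    refine ⟨?_, Or.inl hxy.2.2⟩
    intro h2
    have h3 := hxy.2.2
    dsimp only at h2
    rw [h2] at h3
    simp at h3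

lemma cb_map {A B : Finset Pt} (f : Pt → Pt) (hf : ∀ p ∈ A, f p ∈ B)
    (hd : ∀ p q : Pt, |p.1 - q.1| + |p.2 - q.2| = 1 →
      |(f p).1 - (f q).1| + |(f p).2 - (f q).2| = 1) {p q : Pt} (h : cb_J A p q) :
    cb_J B (f p) (f q) := by
  induction h with
  | refl => exact Relation.ReflTransGen.refl
  | tail _ hxy ih => exact ih.tail ⟨hf _ hxy.1, hf _ hxy.2.1, hd _ _ hxy.2.2⟩

lemma cb_seg {A : Finset Pt} (a : ℤ → Pt) (lo hi : ℤ)
    (hd : ∀ t, |(a t).1 - (a (t + 1)).1| + |(a t).2 - (a (t + 1)).2| = 1)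
    (hA : ∀ t, lo ≤ t → t ≤ hi → a t ∈ A) {s t : ℤ} (hs : lo ≤ s) (hs' : s ≤ hi) (ht : lo ≤ t)
    (ht' : t ≤ hi) : cb_J A (a s) (a t) := by
  have h1 : ∀ n : ℕ, lo + n ≤ hi → cb_J A (a lo) (a (lo + n)) := by
    intro n
    induction n with
    | zero => intro _; simpa using Relation.ReflTransGen.refl
    | succ n ih =>
      intro hn
      push_cast at hn ⊢
      rw [← add_assoc]
      exact (ih (by omega)).tail ⟨hA _ (by omega) (by omega), hA _ (by omega) (by omega), hd _⟩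
  have h2 : ∀ u, lo ≤ u → u ≤ hi → cb_J A (a lo) (a u) := by
    intro u hu hu'
    obtain ⟨n, rfl⟩ := Int.le.dest hu
    exact h1 n hu'
  exact (cb_symm (h2 s hs hs')).trans (h2 t ht ht')

theorem p_CB :
    S_CB := by
  refine ⟨fun P hP => ?_, fun M => ?_, fun P p0 M g h hP hp0 hg => ?_⟩
  · obtain ⟨⟨c, hc⟩⟩ := hP.nonempty
    refine cb_conn (mem_image_of_mem Prod.swap (mem_coe.1 hc)) fun p hp => ?_
    obtain ⟨q, hq, rfl⟩ := mem_image.1 hp
    refine cb_map Prod.swap (fun x hx => mem_image_of_mem _ hx) (fun x y hxy => ?_)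
      (cb_of_conn hP (mem_coe.1 hc) hq)
    simp only [Prod.fst_swap, Prod.snd_swap]
    omega
  · refine cb_conn (c := ((0 : ℤ), (0 : ℤ))) (mem_image.2 ⟨0, by simp, rfl⟩) fun p hp => ?_
    obtain ⟨i, hi, rfl⟩ := mem_image.1 hp
    rw [mem_range] at hi
    refine cb_seg (fun t => ((0 : ℤ), t)) 0 M (fun t => by simp) (fun t h1 h2 => ?_) le_rfl
      (by omega) (by omega) (by omega)
    obtain ⟨n, rfl⟩ := Int.eq_ofNat_of_zero_le h1
    exact mem_image.2 ⟨n, mem_range.2 (by omega), rfl⟩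
  · let C : Finset Pt := (Icc (min p0.2 h) (max p0.2 h)).image fun t => (p0.1, t)
    let Rw : Finset Pt := (Icc p0.1 (p0.1 + M * g)).image fun t => (t, h)
    let P' : Finset Pt := ((range (M + 1)).biUnion fun i =>
      (P ∪ C).image fun z => (z.1 + i * g, z.2)) ∪ Rw
    have hmem : ∀ z : Pt, z ∈ P' ↔ (∃ i : ℕ, i ≤ M ∧ ((z.1 - i * g, z.2) ∈ P ∨
        (z.1 - i * g = p0.1 ∧ min p0.2 h ≤ z.2 ∧ z.2 ≤ max p0.2 h))) ∨
        (z.2 = h ∧ p0.1 ≤ z.1 ∧ z.1 ≤ p0.1 + M * g) := by
      intro z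
      simp only [P', C, Rw, mem_union, mem_biUnion, mem_range, mem_image, mem_Icc]
      refine or_congr (exists_congr fun i => and_congr (by omega) ?_) ?_
      · constructor
        · rintro ⟨w, hw | ⟨t, ht, rfl⟩, rfl⟩
          · left
            simpa using hw
          · right
            exact ⟨by simp, ht⟩
        · rintro (hw | ⟨h1, h2⟩)
          · exact ⟨_, Or.inl hw, by simp⟩
          · exact ⟨(p0.1, z.2), Or.inr ⟨z.2, h2, rfl⟩, Prod.ext (by simp [← h1]) rfl⟩
      · constructor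
        · rintro ⟨t, ht, rfl⟩
          exact ⟨rfl, ht⟩
        · rintro ⟨h1, h2⟩
          exact ⟨z.1, h2, Prod.ext rfl h1.symm⟩
    have hMg : 0 ≤ (M : ℤ) * g := by positivity
    refine ⟨P', ?_, ?_, hmem⟩
    · have hrow : ∀ t, p0.1 ≤ t → t ≤ p0.1 + M * g → cb_J P' (p0.1, h) (t, h) := by
        intro t h1 h2
        exact cb_seg (fun t => (t, h)) p0.1 (p0.1 + M * g) (fun t => by simp)
          (fun t h1 h2 => (hmem _).2 (Or.inr ⟨rfl, h1, h2⟩)) le_rfl (by omega) h1 h2
      have hcol : ∀ i : ℕ, i ≤ M → ∀ t, min p0.2 h ≤ t → t ≤ max p0.2 h →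
          cb_J P' (p0.1, h) (p0.1 + i * g, t) := by
        intro i hi t h1 h2
        have h3 : 0 ≤ (i : ℤ) * g := by positivity
        have h4 : (i : ℤ) * g ≤ M * g := mul_le_mul_of_nonneg_right (by exact_mod_cast hi) hg
        refine (hrow (p0.1 + i * g) (by omega) (by omega)).trans ?_
        exact cb_seg (fun t => (p0.1 + i * g, t)) (min p0.2 h) (max p0.2 h) (fun t => by simp)
          (fun t h1 h2 => (hmem _).2 (Or.inl ⟨i, hi, Or.inr ⟨by simp, h1, h2⟩⟩))
          (min_le_right _ _) (le_max_right _ _) h1 h2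
      refine cb_conn (c := (p0.1, h)) ((hmem _).2 (Or.inr ⟨rfl, le_rfl, by simpa using hMg⟩))
        fun z hz => ?_
      rcases (hmem z).1 hz with ⟨i, hi, hw | ⟨h1, h2, h3⟩⟩ | ⟨h1, h2, h3⟩
      · refine (hcol i hi p0.2 (min_le_left _ _) (le_max_left _ _)).trans ?_
        have h5 := cb_map (B := P') (fun w : Pt => (w.1 + i * g, w.2))
          (fun w hw => (hmem _).2 (Or.inl ⟨i, hi, Or.inl (by simpa using hw)⟩))
          (fun x y hxy => by simpa using hxy) (cb_of_conn hP hp0 hw)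
        simpa using h5
      · have h5 := hcol i hi z.2 h2 h3
        rwa [show p0.1 + i * g = z.1 by omega] at h5
      · have h5 := hrow z.1 h2 h3
        rwa [← h1] at h5 ⊢
    · have hC : (C.card : ℤ) ≤ |h - p0.2| + 1 := by
        have h1 : C.card ≤ (Icc (min p0.2 h) (max p0.2 h)).card := card_image_le
        have h2 : ((Icc (min p0.2 h) (max p0.2 h)).card : ℤ) = max p0.2 h + 1 - min p0.2 h := by
          rw [Int.card_Icc, Int.toNat_of_nonneg (by omega)]
        have h3 := le_abs_self (h - p0.2)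
        have h4 := neg_abs_le (h - p0.2)
        omega
      have hR : (Rw.card : ℤ) ≤ M * g + 1 := by
        have h1 : Rw.card ≤ (Icc p0.1 (p0.1 + M * g)).card := card_image_le
        have h2 : ((Icc p0.1 (p0.1 + M * g)).card : ℤ) = p0.1 + M * g + 1 - p0.1 := by
          rw [Int.card_Icc, Int.toNat_of_nonneg (by omega)]
        omega
      have hB : ((range (M + 1)).biUnion fun i : ℕ =>
          (P ∪ C).image fun z : Pt => (z.1 + i * g, z.2)).card ≤ (M + 1) * (P.card + C.card) := by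
        have h1 := card_biUnion_le_card_mul (range (M + 1))
          (fun i : ℕ => (P ∪ C).image fun z : Pt => (z.1 + i * g, z.2)) (P.card + C.card)
          fun i _ => card_image_le.trans (card_union_le _ _)
        rwa [card_range] at h1
      have h1 : P'.card ≤ (M + 1) * (P.card + C.card) + Rw.card :=
        (card_union_le _ _).trans (Nat.add_le_add_right hB _)
      have h2 : (P'.card : ℤ) ≤ (M + 1) * (P.card + C.card) + Rw.card := by exact_mod_cast h1
      have h3 : ((M : ℤ) + 1) * (P.card + C.card) ≤ (M + 1) * (P.card + |h - p0.2| + 1) :=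
        mul_le_mul_of_nonneg_left (by omega) (by positivity)
      omega

end Pool.Agent.P.MP_d1c5d3_co.CM
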