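import Pool.Agent.P.MP_d1c5d3_co.CM.Iface

/-! Step COMB. -/

set_option autoImplicit false

namespace Pool.Agent.P.MP_d1c5d3_co.CM

open Finset

lemma comb_zero {t s g : ℤ} (h : |t| < g) (e : t = s * g) : t = 0 :=
  Int.eq_zero_of_abs_lt_dvd ⟨s, by rw [e, mul_comm]⟩ h

lemma comb_swap {P : Finset Pt} {z : Pt} : z ∈ P.image Prod.swap ↔ z.swap ∈ P := by
  simp only [mem_image]
  exact ⟨by rintro ⟨x, h, rfl⟩; exact h, fun h => ⟨_, h, rfl⟩⟩

lemma comb_comps {P Q : Finset Pt} {v : Pt} (h : v.swap ∈ comps P Q) :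
    v ∈ comps (P.image Prod.swap) (Q.image Prod.swap) := by
  obtain ⟨h1, p, hp, q, hq, e⟩ := h
  refine ⟨fun p hp q hq e => h1 _ (comb_swap.1 hp) _ (comb_swap.1 hq) (by rw [e]; rfl),
    p.swap, comb_swap.2 hp, q.swap, comb_swap.2 hq, ?_⟩
  rw [add_comm]
  exact e

theorem p_COMB (hCB : S_CB) :
    S_COMB := by
  rintro P Q V a b M ⟨cP, cQ, bP, bQ, bV, hV, ⟨p0, hp0, hp⟩, q0, hq0, hq⟩ hM
  obtain ⟨m, rfl⟩ := Nat.exists_eq_add_of_le' hM
  have a0 : 0 ≤ a := (abs_nonneg _).trans (bP p0 hp0).1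
  have b0 : 0 ≤ b := (abs_nonneg _).trans (bP p0 hp0).2
  obtain ⟨g, hg⟩ : ∃ g, g = 3 * a + 1 := ⟨_, rfl⟩
  obtain ⟨G, hG⟩ : ∃ G : ℤ, G = (m + 1) * g := ⟨_, rfl⟩
  have g0 : 0 ≤ g := by omega
  have m0 : (0 : ℤ) ≤ m := Nat.cast_nonneg m
  have mg : 0 ≤ (m : ℤ) * g := mul_nonneg m0 g0
  have G1 : G = m * g + g := by rw [hG]; ring
  have G0 : 0 ≤ G := by omega
  have mG : 0 ≤ (m : ℤ) * G := mul_nonneg m0 G0
  have G2 : ((m + 1 : ℕ) : ℤ) ^ 2 * (3 * a + 1) = m * G + G := by rw [hG, hg]; push_cast; ring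
  have il : ∀ (i : ℕ) (t : ℤ), i ≤ m → 0 ≤ t → 0 ≤ (i : ℤ) * t ∧ (i : ℤ) * t ≤ m * t :=
    fun i t hi ht => ⟨by positivity, mul_le_mul_of_nonneg_right (by exact_mod_cast hi) ht⟩
  obtain ⟨P1, cP1, kP, mP⟩ := hCB.2.2 P p0 m g (-(2 * b + 1)) cP hp0 g0
  obtain ⟨Q1, cQ1, kQ, mQ⟩ := hCB.2.2 Q q0 m G (2 * b + 1) cQ hq0 G0
  have p1 := bP p0 hp0
  have q1 := bQ q0 hq0
  simp only [abs_le] at bP bQ bV p1 q1
  rw [min_eq_right (by omega), max_eq_left (by omega)] at mP
  rw [min_eq_left (by omega), max_eq_right (by omega)] at mQ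
  have xP : ∀ z ∈ P1, (-a ≤ z.1 ∧ z.1 ≤ a + m * g) ∧ -(2 * b + 1) ≤ z.2 ∧ z.2 ≤ b := fun z hz => by
    rcases (mP z).1 hz with ⟨i, hi, h | h⟩ | h
    · have := bP _ h
      have := il i g hi g0
      dsimp only at *
      omega
    · have := il i g hi g0
      omega
    · omega
  have xQ : ∀ z ∈ Q1, (-a ≤ z.1 ∧ z.1 ≤ a + m * G) ∧ -b ≤ z.2 ∧ z.2 ≤ 2 * b + 1 := fun z hz => by
    rcases (mQ z).1 hz with ⟨i, hi, h | h⟩ | h
    · have := bQ _ h
      have := il i G hi G0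
      dsimp only at *
      omega
    · have := il i G hi G0
      omega
    · omega
  let f : (ℕ × ℕ) × Pt → Pt := fun x => (x.2.2, x.2.1 + x.1.1 * g - x.1.2 * G)
  have mV : ∀ w ∈ ((range (m + 1) ×ˢ range (m + 1)) ×ˢ V).image f, ∃ i ≤ m, ∃ l ≤ m, ∃ v ∈ V,
      w = (v.2, v.1 + (i : ℕ) * g - (l : ℕ) * G) := fun w hw => by
    obtain ⟨⟨⟨i, l⟩, v⟩, h, rfl⟩ := mem_image.1 hw
    simp only [mem_product, mem_range] at h
    exact ⟨i, by omega, l, by omega, v, h.2, rfl⟩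
  refine ⟨P1.image Prod.swap, Q1.image Prod.swap, ((range (m + 1) ×ˢ range (m + 1)) ×ˢ V).image f,
    ⟨hCB.1 _ cP1, hCB.1 _ cQ1, fun z hz => ?_, fun z hz => ?_, fun w hw => ?_, fun w hw => ?_,
      ⟨(-(2 * b + 1), p0.1), comb_swap.2 ((mP _).2 (Or.inr ⟨rfl, le_rfl, ?_⟩)), fun w hw z hz => ?_⟩,
      (2 * b + 1, q0.1), comb_swap.2 ((mQ _).2 (Or.inr ⟨rfl, le_rfl, ?_⟩)), fun w hw z hz => ?_⟩,
    ?_, ?_, ?_⟩
  · have := xP _ (comb_swap.1 hz)
    simp only [Prod.fst_swap, Prod.snd_swap] at this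
    rw [G2, abs_le, abs_le]
    omega
  · have := xQ _ (comb_swap.1 hz)
    simp only [Prod.fst_swap, Prod.snd_swap] at this
    rw [G2, abs_le, abs_le]
    omega
  · obtain ⟨i, hi, l, hl, v, hv, rfl⟩ := mV w hw
    have := bV v hv
    have := il i g hi g0
    have := il l G hl G0
    rw [G2, abs_le, abs_le]
    dsimp only
    omega
  · obtain ⟨i, hi, l, hl, v, hv, rfl⟩ := mV w hw
    obtain ⟨h1, p, hp', q, hq', e⟩ := hV v hv
    refine comb_comps ⟨fun z hz y hy e => ?_, (p.1 + i * g, p.2),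
      (mP _).2 (Or.inl ⟨i, hi, Or.inl (by simpa using hp')⟩), (q.1 + l * G, q.2),
      (mQ _).2 (Or.inl ⟨l, hl, Or.inl (by simpa using hq')⟩), ?_⟩
    · have e1 : z.1 = y.1 + (v.1 + i * g - l * G) := congrArg Prod.fst e
      have e2 : z.2 = y.2 + v.2 := congrArg Prod.snd e
      have v1 := bV v hv
      have z1 := xP z hz
      have y1 := xQ y hy
      have k : ∀ (i' l' : ℕ), -a ≤ z.1 - i' * g ∧ z.1 - i' * g ≤ a →
          -a ≤ y.1 - l' * G ∧ y.1 - l' * G ≤ a → z.1 - i' * g = y.1 - l' * G + v.1 :=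
        fun i' l' h1 h2 => sub_eq_zero.1 (comb_zero (g := g)
          (s := i - i' + (l' - l) * (m + 1)) (by rw [abs_lt]; omega) (by rw [e1, hG]; ring))
      rcases (mP z).1 hz with ⟨i', -, h2⟩ | h2
      · rcases (mQ y).1 hy with ⟨l', -, h3⟩ | h3
        · rcases h2 with h2 | h2 <;> rcases h3 with h3 | h3
          · exact h1 _ h2 _ h3 (Prod.ext (k i' l' (bP _ h2).1 (bQ _ h3).1) e2)
          · have := k i' l' (bP _ h2).1 (by omega)
            have := hq v hv _ h2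
            dsimp only at this
            omega
          · have := k i' l' (by omega) (bQ _ h3).1
            have := hp v hv _ h3
            dsimp only at this
            omega
          · have := k i' l' (by omega) (by omega)
            have := hp v hv _ hq0
            omega
        · omega
      · omega
    · rw [← e]
      simp only [Prod.fst_add, Prod.snd_add, Prod.fst_swap, Prod.snd_swap]
      congr 2
      ring
  · exact le_add_of_nonneg_right mg
  · obtain ⟨i, hi, l, hl, v, hv, rfl⟩ := mV w hw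
    have := xQ _ (comb_swap.1 hz)
    have := bV v hv
    simp only [Prod.fst_swap, Prod.snd_swap] at *
    omega
  · exact le_add_of_nonneg_right mG
  · obtain ⟨i, hi, l, hl, v, hv, rfl⟩ := mV w hw
    have := xP _ (comb_swap.1 hz)
    have := bV v hv
    simp only [Prod.fst_swap, Prod.snd_swap] at *
    omega
  · rw [card_image_of_injOn, card_product, card_product, card_range, sq]
    rintro ⟨⟨i, l⟩, v⟩ h ⟨⟨i', l'⟩, v'⟩ h' e
    simp only [coe_product, Set.mem_prod, mem_coe, mem_range] at h h'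
    have e1 : v.2 = v'.2 := congrArg Prod.fst e
    have e2 : v.1 + i * g - l * G = v'.1 + i' * g - l' * G := congrArg Prod.snd e
    have v1 := bV v h.2
    have v2 := bV v' h'.2
    have e3 : v.1 - v'.1 = (i' - i + (l - l') * (m + 1)) * g := by
      rw [hG] at e2
      linear_combination e2
    have e4 := comb_zero (by rw [abs_lt]; omega) e3
    have e5 : (i' : ℤ) - i + (l - l') * (m + 1) = 0 :=
      (mul_eq_zero.1 (e3.symm.trans e4)).resolve_right (by omega)
    have e6 : (i' : ℤ) - i = 0 := comb_zero (g := m + 1) (s := l' - l) (by rw [abs_lt]; omega)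
      (by linear_combination e5)
    have e7 : (l : ℤ) - l' = 0 :=
      (mul_eq_zero.1 (show ((l : ℤ) - l') * (m + 1) = 0 by linear_combination e5 - e6)).resolve_right
        (by omega)
    exact Prod.ext (Prod.ext (by dsimp only; omega) (by dsimp only; omega))
      (Prod.ext (sub_eq_zero.1 e4) e1)
  · rw [card_image_of_injective _ Prod.swap_injective, G2]
    have : |-(2 * b + 1) - p0.2| ≤ 3 * b + 1 := by rw [abs_le]; omega
    have := mul_le_mul_of_nonneg_left this (by omega : (0 : ℤ) ≤ m + 1)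
    push_cast
    linarith
  · rw [card_image_of_injective _ Prod.swap_injective, G2]
    have : |2 * b + 1 - q0.2| ≤ 3 * b + 1 := by rw [abs_le]; omega
    have := mul_le_mul_of_nonneg_left this (by omega : (0 : ℤ) ≤ m + 1)
    push_cast
    linarith

end Pool.Agent.P.MP_d1c5d3_co.CM
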