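import Pool.Agent.P.MP_d1c5d3_co.CM.Iface

/-! Step COS. -/

set_option autoImplicit false

namespace Pool.Agent.P.MP_d1c5d3_co.CM

open Finset

open Classical in
/-- The indicator of a coset. -/
noncomputable def cos_phi (p q z0 : Pt) (x : Pt) : ℤ :=
  if ∃ i j : ℤ, z0 = x + i • p + j • q then 1 else 0

lemma cos_iff (p q z0 x y : Pt) (k l : ℤ) (h : y = x + k • p + l • q) :
    cos_phi p q z0 y = cos_phi p q z0 x := by
  have : (∃ i j : ℤ, z0 = y + i • p + j • q) ↔ ∃ i j : ℤ, z0 = x + i • p + j • q := by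
    constructor
    · rintro ⟨i, j, e⟩
      refine ⟨i + k, j + l, ?_⟩
      rw [e, h, add_smul, add_smul]
      abel
    · rintro ⟨i, j, e⟩
      refine ⟨i - k, j - l, ?_⟩
      rw [e, h, sub_smul, sub_smul]
      abel
  unfold cos_phi
  classical
  exact if_congr this rfl rfl

lemma cos_shift (p q z d : Pt) :
    (fun x => cos_phi p q z (x - d)) = cos_phi p q (z + d) := by
  funext x
  have : (∃ i j : ℤ, z = x - d + i • p + j • q) ↔ ∃ i j : ℤ, z + d = x + i • p + j • q := by
    constructor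
    · rintro ⟨i, j, e⟩
      exact ⟨i, j, by rw [e]; abel⟩
    · rintro ⟨i, j, e⟩
      refine ⟨i, j, ?_⟩
      have : z = x + i • p + j • q - d := by rw [← e]; abel
      rw [this]; abel
  unfold cos_phi
  classical
  exact if_congr this rfl rfl

lemma cos_const (F : Pt → ℤ) (h1 : ∀ z, F (z + (1, 0)) = F z) (h2 : ∀ z, F (z + (0, 1)) = F z)
    (z w : Pt) : F z = F w := by
  have a1 : ∀ (k : ℤ) (z : Pt), F (z + (k, 0)) = F z := by
    intro k
    induction k using Int.induction_on with
    | zero => intro z; congr 1; ext <;> simp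
    | succ k ih =>
      intro z
      rw [← ih z, ← h1 (z + ((k : ℤ), 0))]
      congr 1; ext <;> simp [add_assoc]
    | pred k ih =>
      intro z
      rw [← ih z, ← h1 (z + (-(k : ℤ) - 1, 0))]
      congr 1; ext <;> simp [add_assoc]
  have a2 : ∀ (k : ℤ) (z : Pt), F (z + (0, k)) = F z := by
    intro k
    induction k using Int.induction_on with
    | zero => intro z; congr 1; ext <;> simp
    | succ k ih =>
      intro z
      rw [← ih z, ← h2 (z + (0, (k : ℤ)))]
      congr 1; ext <;> simp [add_assoc]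
    | pred k ih =>
      intro z
      rw [← ih z, ← h2 (z + (0, -(k : ℤ) - 1))]
      congr 1; ext <;> simp [add_assoc]
  rw [← a1 (z.1 - w.1) w, ← a2 (z.2 - w.2) (w + (z.1 - w.1, 0))]
  congr 1; ext <;> simp

theorem p_COS (hSHIFT : S_SHIFT) (hSUPP : S_SUPP) (hIDX : S_IDX) :
    S_COS := by
  classical
  intro a b m n ha hb
  obtain ⟨s1, s2, s3, s4⟩ := hSUPP a b m n ha hb
  refine ⟨((range (m + 1) ×ˢ range (n + 1)).image (fun g => a g.1 + b g.2)).filter
    (fun x => wn a b m n x ≠ 0), fun x hx => (mem_filter.1 hx).2, ?_⟩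
  by_cases h0 : dt (a m - a 0) (b n - b 0) = 0
  · rw [h0]; simp
  apply hIDX
  intro z0
  by_contra hz
  apply h0
  set p := a m - a 0 with hp
  set q := b n - b 0 with hq
  have hper : ∀ z : Pt, ((∀ x, cos_phi p q z (x + p) = cos_phi p q z x) ∧
      ∀ x, cos_phi p q z (x + q) = cos_phi p q z x) := fun z =>
    ⟨fun x => cos_iff p q z x _ 1 0 (by simp), fun x => cos_iff p q z x _ 0 1 (by simp)⟩
  have hsh : ∀ d : Pt, (d = (1, 0) ∨ d = (0, 1)) → ∀ z,
      WW a b m n (cos_phi p q (z + d)) = WW a b m n (cos_phi p q z) := by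
    intro d hd z
    rw [← cos_shift]
    exact hSHIFT a b m n (cos_phi p q z) d ha hb hd (Or.inl (hper z))
  have hz0 : WW a b m n (cos_phi p q z0) = 0 := by
    apply s3
    intro x hx
    unfold cos_phi
    rw [if_neg]
    intro hex
    apply hz
    refine ⟨x, mem_filter.2 ⟨?_, hx⟩, hex⟩
    obtain ⟨i, hi, j, hj, e⟩ := s1 x hx
    exact mem_image.2 ⟨(i, j), mem_product.2 ⟨mem_range.2 (by omega), mem_range.2 (by omega)⟩,
      e.symm⟩
  have hall : ∀ z, WW a b m n (cos_phi p q z) = 0 := fun z => by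
    rw [← hz0]
    exact cos_const (fun z => WW a b m n (cos_phi p q z)) (hsh _ (Or.inl rfl))
      (hsh _ (Or.inr rfl)) z z0
  rw [← s2]
  apply s4 (Pt → ℤ) (fun x z => cos_phi p q z x)
  intro ξ φ h1 h2
  by_cases hξ : ∃ w, (fun z => cos_phi p q z w) = ξ
  · obtain ⟨w, hw⟩ := hξ
    rw [← hall w]
    congr 1
    funext x
    by_cases hx : ∃ i j : ℤ, w = x + i • p + j • q
    · have e1 : cos_phi p q w x = 1 := by unfold cos_phi; rw [if_pos hx]
      rw [e1]
      apply h1
      rw [← hw]
      obtain ⟨i, j, e⟩ := hx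
      funext z
      exact (cos_iff p q z x w i j e).symm
    · have e1 : cos_phi p q w x = 0 := by unfold cos_phi; rw [if_neg hx]
      rw [e1]
      apply h2
      intro e
      rw [← hw] at e
      have e2 := congrFun e w
      change cos_phi p q w x = cos_phi p q w w at e2
      rw [e1] at e2
      unfold cos_phi at e2
      rw [if_pos ⟨0, 0, by simp⟩] at e2
      exact absurd e2 (by decide)
  · apply s3
    intro x _
    exact h2 x (fun e => hξ ⟨x, e⟩)

end Pool.Agent.P.MP_d1c5d3_co.CM
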