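import Pool.Agent.P.MP_d1c5d3_co.CM.Iface

/-! Step DOWN. -/

set_option autoImplicit false

namespace Pool.Agent.P.MP_d1c5d3_co.CM

open Finset

lemma down_nat (hCB : S_CB) (hLOW : S_LOW) (n s : ℕ) (hn : 1 ≤ n) (hs : n < 2 ^ ((s + 1) ^ 2)) :
    ∃ P Q V : Finset Pt, Conn P ∧ Conn Q ∧ P.card ≤ n ∧ Q.card ≤ n ∧ (∀ v ∈ V, v ∈ comps P Q) ∧
      n ^ 2 ≤ 128 ^ (s + 1) * V.card := by
  by_cases h4 : 4 ^ (s + 1) ≤ n
  · obtain ⟨M, hM1, hMle, hMlt⟩ : ∃ M : ℕ, 1 ≤ M ∧ (4 * M) ^ (s + 1) ≤ n ∧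
        n < (4 * (M + 1)) ^ (s + 1) := by
      have hex : ∃ m : ℕ, n < (4 * (m + 1)) ^ (s + 1) :=
        ⟨n, lt_of_lt_of_le (by omega) (Nat.le_self_pow (by omega) _)⟩
      have h0 := Nat.find_spec hex
      have hpos : 1 ≤ Nat.find hex := by
        by_contra hc
        have h00 : Nat.find hex = 0 := by omega
        rw [h00] at h0
        simp at h0
        omega
      refine ⟨Nat.find hex, hpos, ?_, h0⟩
      have := Nat.find_min hex (m := Nat.find hex - 1) (by omega)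
      rw [Nat.sub_add_cancel hpos] at this
      omega
    obtain ⟨P, Q, V, hP, hQ, hPc, hQc, hV, hVc⟩ := hLOW M s hM1
    refine ⟨P, Q, V, hP, hQ, hPc.trans hMle, hQc.trans hMle, hV, ?_⟩
    have h8 : n ≤ (8 * M) ^ (s + 1) :=
      hMlt.le.trans (Nat.pow_le_pow_left (by omega) _)
    have hM2 : M ≤ 2 ^ (s + 1) := by
      by_contra hc
      have h1 : (2 ^ (s + 1)) ^ (s + 1) ≤ (4 * M) ^ (s + 1) := Nat.pow_le_pow_left (by omega) _
      rw [← pow_mul, ← sq] at h1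
      omega
    calc n ^ 2 ≤ ((8 * M) ^ (s + 1)) ^ 2 := Nat.pow_le_pow_left h8 _
      _ = 64 ^ (s + 1) * M * M ^ (2 * s + 1) := by
        rw [mul_pow, mul_pow, ← pow_mul, ← pow_mul, mul_comm (s + 1) 2, pow_mul]
        norm_num
        ring
      _ ≤ 64 ^ (s + 1) * 2 ^ (s + 1) * V.card := by gcongr
      _ = 128 ^ (s + 1) * V.card := by rw [← mul_pow, show 64 * 2 = 128 from rfl]
  · have hc := hCB.2.1 0
    have he : ((range (0 + 1)).image fun i : ℕ => ((0 : ℤ), (i : ℤ))) = {((0 : ℤ), (0 : ℤ))} := by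
      simp
    rw [he] at hc
    refine ⟨_, _, {((1 : ℤ), (0 : ℤ))}, hc, hc, by simpa using hn, by simpa using hn, ?_, ?_⟩
    · intro v hv
      rw [mem_singleton] at hv
      subst hv
      refine ⟨?_, ?_⟩
      · intro p hp q hq
        rw [mem_singleton] at hp hq
        subst hp hq
        simp
      · exact ⟨_, mem_singleton_self _, _, mem_singleton_self _, by simp⟩
    · rw [card_singleton, mul_one]
      calc n ^ 2 ≤ (4 ^ (s + 1)) ^ 2 := Nat.pow_le_pow_left (by omega) _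
        _ = 16 ^ (s + 1) := by rw [← pow_mul, mul_comm, pow_mul]; norm_num
        _ ≤ 128 ^ (s + 1) := Nat.pow_le_pow_left (by norm_num) _

lemma down_exp (n : ℕ) (hn : 1 ≤ n) :
    (128 : ℝ) ^ (Nat.sqrt (Nat.log 2 n)) ≤ Real.exp (10 * √(Real.log n)) := by
  set s := Nat.sqrt (Nat.log 2 n) with hs
  have h1 : s ^ 2 ≤ Nat.log 2 n := Nat.sqrt_le' _
  have h2 : 2 ^ Nat.log 2 n ≤ n := Nat.pow_log_le_self 2 (by omega)
  have h3 : (2 : ℝ) ^ (s ^ 2) ≤ n := by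
    exact_mod_cast (Nat.pow_le_pow_right (by norm_num) h1).trans h2
  have h4 : ((s ^ 2 : ℕ) : ℝ) * Real.log 2 ≤ Real.log n := by
    rw [← Real.log_pow]
    exact Real.log_le_log (by positivity) h3
  have hl := Real.log_two_gt_d9
  have hu := Real.log_two_lt_d9
  push_cast at h4
  have h5 : (s : ℝ) / 2 ≤ √(Real.log n) := by
    apply Real.le_sqrt_of_sq_le
    nlinarith [sq_nonneg (s : ℝ)]
  have h6 : (128 : ℝ) ^ s = Real.exp (s * (7 * Real.log 2)) := by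
    rw [Real.exp_nat_mul, show (7 : ℝ) * Real.log 2 = ((7 : ℕ) : ℝ) * Real.log 2 by norm_num,
      Real.exp_nat_mul, Real.exp_log (by norm_num)]
    norm_num
  rw [h6]
  apply Real.exp_le_exp.2
  have : (0 : ℝ) ≤ s := Nat.cast_nonneg _
  nlinarith

theorem p_DOWN (hCB : S_CB) (hLOW : S_LOW) :
    S_DOWN := by
  refine ⟨10, 1 / 128, by norm_num, by norm_num, fun n hn => ?_⟩
  have hs : n < 2 ^ ((Nat.sqrt (Nat.log 2 n) + 1) ^ 2) := by
    have h1 : Nat.log 2 n < (Nat.sqrt (Nat.log 2 n) + 1) ^ 2 := Nat.lt_succ_sqrt' _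
    exact (Nat.lt_pow_succ_log_self (by norm_num) n).trans_le
      (Nat.pow_le_pow_right (by norm_num) h1)
  obtain ⟨P, Q, V, hP, hQ, hPc, hQc, hV, hVc⟩ := down_nat hCB hLOW n _ hn hs
  refine ⟨P, Q, V, hP, hQ, hPc, hQc, hV, ?_⟩
  have h1 := down_exp n hn
  have h2 : (n : ℝ) ^ 2 ≤ 128 ^ (Nat.sqrt (Nat.log 2 n) + 1) * V.card := by exact_mod_cast hVc
  have h3 : Real.exp (-10 * √(Real.log n)) = (Real.exp (10 * √(Real.log n)))⁻¹ := by
    rw [← Real.exp_neg]; ring_nf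
  have hE := Real.exp_pos (10 * √(Real.log n))
  rw [h3, ← div_eq_mul_inv, div_le_iff₀ hE]
  have hV0 : (0 : ℝ) ≤ V.card := Nat.cast_nonneg _
  rw [pow_succ (128 : ℝ)] at h2
  nlinarith [mul_le_mul_of_nonneg_left h1 hV0]

end Pool.Agent.P.MP_d1c5d3_co.CM
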