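import Pool.Agent.P.MP_d1c5d3_co.CM.Iface

/-! Step IDX. -/

set_option autoImplicit false

namespace Pool.Agent.P.MP_d1c5d3_co.CM

open Finset

/-- The map with columns `p`, `q`. -/
noncomputable def idx_f (p q : Pt) : Pt →ₗ[ℤ] Pt :=
  Matrix.toLin (Module.Basis.finTwoProd ℤ) (Module.Basis.finTwoProd ℤ) !![p.1, q.1; p.2, q.2]

lemma idx_apply (p q : Pt) (i j : ℤ) : idx_f p q (i, j) = i • p + j • q := by
  rw [idx_f, Matrix.toLin_finTwoProd_apply]
  ext <;> simp [mul_comm]

lemma idx_det (p q : Pt) : LinearMap.det (idx_f p q) = dt p q := by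
  rw [idx_f, LinearMap.det_toLin, Matrix.det_fin_two_of, dt]
  ring

lemma idx_inj (p q : Pt) (h : dt p q ≠ 0) : Function.Injective (idx_f p q) := by
  rw [injective_iff_map_eq_zero]
  rintro ⟨i, j⟩ e
  rw [idx_apply] at e
  have e1 := congrArg Prod.fst e
  have e2 := congrArg Prod.snd e
  simp only [Prod.fst_add, Prod.snd_add, Prod.smul_fst, Prod.smul_snd, smul_eq_mul,
    Prod.fst_zero, Prod.snd_zero] at e1 e2
  have hi : i * dt p q = 0 := by unfold dt; linear_combination q.2 * e1 - q.1 * e2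
  have hj : j * dt p q = 0 := by unfold dt; linear_combination p.1 * e2 - p.2 * e1
  rw [(mul_eq_zero.1 hi).resolve_right h, (mul_eq_zero.1 hj).resolve_right h]
  rfl

theorem p_IDX :
    S_IDX := by
  intro p q A hA
  by_cases h : dt p q = 0
  · rw [h]; simp
  have e := Submodule.natAbs_det_equiv (LinearMap.range (idx_f p q))
    (LinearEquiv.ofInjective (idx_f p q) (idx_inj p q h))
  have e' : (LinearMap.range (idx_f p q)).subtype ∘ₗ
      AddMonoidHom.toIntLinearMap (LinearEquiv.ofInjective (idx_f p q) (idx_inj p q h) :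
        Pt →+ LinearMap.range (idx_f p q)) = idx_f p q := LinearMap.ext fun _ => rfl
  rw [e', idx_det] at e
  have s : Function.Surjective
      (fun x : A => (Submodule.Quotient.mk x.1 : Pt ⧸ LinearMap.range (idx_f p q))) := by
    intro y
    obtain ⟨z, rfl⟩ := Submodule.Quotient.mk_surjective _ y
    obtain ⟨x, hx, i, j, rfl⟩ := hA z
    refine ⟨⟨x, hx⟩, ((Submodule.Quotient.eq _).2 (LinearMap.mem_range.2 ⟨(i, j), ?_⟩)).symm⟩
    rw [idx_apply]
    abel
  have c := Nat.card_le_card_of_surjective _ s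
  rw [← e, Nat.card_eq_fintype_card, Fintype.card_coe] at c
  rw [← Int.natCast_natAbs]
  exact_mod_cast c

end Pool.Agent.P.MP_d1c5d3_co.CM
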