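import Pool.Agent.P.MP_d1c5d3_co.CM.Iface

/-! Step LVL. -/

set_option autoImplicit false

namespace Pool.Agent.P.MP_d1c5d3_co.CM

open Finset

lemma lvl_fill (hFILL : S_FILL) (a b : ℕ → Pt) (ha : Wk a) (hb : Wk b) (r : ℤ) (hr : 0 ≤ r)
    (i0 i1 j0 j1 : ℕ) (hi : i0 ≤ i1) (hj : j0 ≤ j1) :
    ∃ H : Finset Pt, (∀ h ∈ H, ∀ z, nm (z - h) ≤ r →
      ∃ i j, i0 ≤ i ∧ i ≤ i1 ∧ j0 ≤ j ∧ j ≤ j1 ∧ z = a i + b j) ∧
      |dt (a i1 - a i0) (b j1 - b j0)| ≤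
        H.card + 50 * (r + 1) * (((i1 : ℤ) - i0) + ((j1 : ℤ) - j0) + 2 * (r + 1)) := by
  obtain ⟨H, h1, h2⟩ := hFILL (fun i => a (i0 + i)) (fun j => b (j0 + j)) (i1 - i0) (j1 - j0) r
    (fun i => ha (i0 + i)) (fun j => hb (j0 + j)) hr
  refine ⟨H, fun h hh z hz => ?_, ?_⟩
  · obtain ⟨i, hi', j, hj', e⟩ := h1 h hh z hz
    exact ⟨i0 + i, j0 + j, by omega, by omega, by omega, by omega, e⟩
  · simp only [Nat.add_sub_cancel' hi, Nat.add_sub_cancel' hj, add_zero, Nat.cast_sub hi,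
      Nat.cast_sub hj] at h2
    exact h2

lemma lvl_err (r ρ T D m n h : ℤ) (hr : 0 < r) (hT : 0 < T) (h1 : 4096 * T ^ 2 * r ≤ ρ)
    (h2 : ρ ^ 2 ≤ T * D) (hm : m ≤ T * ρ) (hn : n ≤ T * ρ) (hm0 : 0 ≤ m) (hn0 : 0 ≤ n)
    (h3 : D ≤ h + 50 * (4 * r + 1 + 1) * (m + n + 2 * (4 * r + 1 + 1))) : D ≤ 2 * h := by
  have hT2 : T ≤ T ^ 2 := by nlinarith
  have hρ : 4096 * r ≤ ρ := by nlinarith
  have hρ0 : 0 < ρ := by omega
  have hD : 4096 * T * r * ρ ≤ D := by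
    have : T * (4096 * T * r * ρ) ≤ T * D := by nlinarith
    exact le_of_mul_le_mul_left this hT
  have hTρ : ρ ≤ T * ρ := by nlinarith
  have e1 : m + n + 2 * (4 * r + 1 + 1) ≤ 3 * (T * ρ) := by omega
  have e2 : 50 * (4 * r + 1 + 1) * (m + n + 2 * (4 * r + 1 + 1)) ≤ 300 * r * (3 * (T * ρ)) :=
    mul_le_mul (by omega) e1 (by omega) (by omega)
  have e3 : 0 ≤ T * r * ρ := by positivity
  nlinarith

lemma lvl_num (r ρ T D : ℤ) (hr : 0 < r) (hT : 0 < T) (h1 : 4096 * T ^ 2 * r ≤ ρ)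
    (h2 : ρ ^ 2 ≤ T * D) : 0 < ρ ∧ ρ ≤ D ∧ 8 * ρ * r ≤ 22 * D := by
  have hT2 : 1 ≤ T ^ 2 := by nlinarith
  have hρ : 4096 * r ≤ ρ := by nlinarith
  have hρ0 : 0 < ρ := by omega
  have hD : 4096 * T * r * ρ ≤ D := by
    have : T * (4096 * T * r * ρ) ≤ T * D := by nlinarith
    exact le_of_mul_le_mul_left this hT
  have e1 : ρ ≤ r * ρ := by nlinarith
  have e0 : 0 ≤ r * ρ := by positivity
  have e2 : r * ρ ≤ T * (r * ρ) := by nlinarith
  refine ⟨hρ0, by nlinarith, by nlinarith⟩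

theorem p_LVL (hDET : S_DET) (hFILL : S_FILL) :
    S_LVL := by
  intro a b L r ρ T ba bb G ha hb hr hT hρT hba hbb hG
  have key : ∀ g : ℕ × ℕ, ∃ H : Finset Pt, g ∈ G →
      ((DD a b (ba g.1) (bb g.2) : ℤ) ≤ 2 * H.card ∧
      (∀ h ∈ H, h ∉ nb (G.image (pt a b)) (4 * r)) ∧
      ∀ y, nm y ≤ ρ → |dt y (a (ba g.1).2 - a (ba g.1).1)| ≤ 4 * (DD a b (ba g.1) (bb g.2) : ℤ) →
        H ⊆ strip (pt a b g) y (4 * ρ) (22 * (DD a b (ba g.1) (bb g.2) : ℤ))) := by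
    intro g
    by_cases hg : g ∈ G
    swap
    · exact ⟨∅, fun h => absurd h hg⟩
    obtain ⟨hs, ht, -, hB, hC, hD⟩ := hG g hg
    obtain ⟨B1, B2, B3, B4⟩ := hba.1 g.1 hs
    obtain ⟨C1, C2, C3, C4⟩ := hbb.1 g.2 ht
    obtain ⟨hρ0, -, -⟩ := lvl_num r ρ T _ hr hT hρT hD
    set B := ba g.1 with eB
    set C := bb g.2 with eC
    have hex : ∃ H : Finset Pt, (DD a b B C : ℤ) ≤ 2 * H.card ∧ ∀ h ∈ H, ∀ z,
        nm (z - h) ≤ 4 * r + 1 →
        ∃ i j, B.1 ≤ i ∧ i ≤ B.2 ∧ C.1 ≤ j ∧ j ≤ C.2 ∧ z = a i + b j := by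
      have hB2 := hB.2
      have hC2 := hC.2
      rcases DD_att a b B C (B1.trans B2) (C1.trans C2) with ⟨j, j1, j2, e⟩ | ⟨i, i1, i2, e⟩
      · obtain ⟨H, h1, h2⟩ := lvl_fill hFILL a b ha hb (4 * r + 1) (by omega) B.1 B.2 C.1 j
          (B1.trans B2) j1
        rw [e] at h2
        refine ⟨H, lvl_err r ρ T _ _ _ _ hr hT hρT hD hB2 (by omega) (by omega) (by omega) h2,
          fun h hh z hz => ?_⟩
        obtain ⟨i', j', k1, k2, k3, k4, k5⟩ := h1 h hh z hz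
        exact ⟨i', j', k1, k2, k3, k4.trans j2, k5⟩
      · obtain ⟨H, h1, h2⟩ := lvl_fill hFILL a b ha hb (4 * r + 1) (by omega) B.1 i C.1 C.2
          i1 (C1.trans C2)
        rw [e] at h2
        refine ⟨H, lvl_err r ρ T _ _ _ _ hr hT hρT hD (by omega) hC2 (by omega) (by omega) h2,
          fun h hh z hz => ?_⟩
        obtain ⟨i', j', k1, k2, k3, k4, k5⟩ := h1 h hh z hz
        exact ⟨i', j', k1, k2.trans i2, k3, k4, k5⟩
    obtain ⟨H, h1, h2⟩ := hex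
    refine ⟨H, fun _ => ⟨h1, fun h hh hn => ?_, fun y hy hyu h hh => ?_⟩⟩
    · obtain ⟨c, hc, hd⟩ := (mem_nb _ _ _).1 hn
      obtain ⟨g', hg', rfl⟩ := mem_image.1 hc
      obtain ⟨-, -, ⟨z, z1, z2⟩, -⟩ := hG g' hg'
      have t1 := nm_tri z (pt a b g') h
      rw [nm_sub_comm (pt a b g') h] at t1
      obtain ⟨i, j, k1, k2, k3, k4, k5⟩ := h2 h hh z (by omega)
      exact z2 i (k2.trans B3) j (k4.trans C3) k5
    · obtain ⟨i, j, k1, k2, k3, k4, k5⟩ := h2 h hh h (by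
        rw [sub_self]; simp only [nm, Prod.fst_zero, Prod.snd_zero, abs_zero, max_self]; omega)
      have e : h - pt a b g = ((a i - a B.1) - (a g.1 - a B.1)) +
          ((b j - b C.1) - (b g.2 - b C.1)) := by
        rw [k5, pt]; abel
      have hu' : |dt y (b C.2 - b C.1)| ≤ 5 * (DD a b B C : ℤ) := by
        have s1 := hDET.2.1 _ (b C.2 - b C.1) y ρ hρ0 hB.1 hC.1.le hy
        have s2 := DD_left a b B C C.2 (C1.trans C2) le_rfl
        omega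
      have hA : ∀ i, B.1 ≤ i → i ≤ B.2 → |dt y (a i - a B.1)| ≤ 6 * (DD a b B C : ℤ) := by
        intro i i1 i2
        have s1 := hDET.2.1 _ (a i - a B.1) y ρ hρ0 hC.1 (B4 i i1 i2) hy
        have s2 := DD_right a b B C i i1 i2
        rw [abs_dt_comm] at s2
        omega
      have hBb : ∀ j, C.1 ≤ j → j ≤ C.2 → |dt y (b j - b C.1)| ≤ 5 * (DD a b B C : ℤ) := by
        intro j j1 j2
        have s1 := hDET.2.1 _ (b j - b C.1) y ρ hρ0 hB.1 (C4 j j1 j2) hy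
        have s2 := DD_left a b B C j j1 j2
        omega
      rw [mem_strip, e]
      constructor
      · have n1 := nm_add ((a i - a B.1) - (a g.1 - a B.1)) ((b j - b C.1) - (b g.2 - b C.1))
        have n2 := nm_add (a i - a B.1) (-(a g.1 - a B.1))
        have n3 := nm_add (b j - b C.1) (-(b g.2 - b C.1))
        rw [nm_neg, ← sub_eq_add_neg] at n2 n3
        have := B4 i k1 k2
        have := B4 g.1 B1 B2
        have := C4 j k3 k4
        have := C4 g.2 C1 C2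
        omega
      · have a1 := abs_le.1 (hA i k1 k2)
        have a2 := abs_le.1 (hA g.1 B1 B2)
        have a3 := abs_le.1 (hBb j k3 k4)
        have a4 := abs_le.1 (hBb g.2 C1 C2)
        rw [dt_add, dt_sub y (a i - a B.1), dt_sub y (b j - b C.1), abs_le]
        omega
  choose H hH using key
  refine ⟨fun s => a (ba s).2 - a (ba s).1, fun s => b (bb s).2 - b (bb s).1,
    fun g => DD a b (ba g.1) (bb g.2), H, fun g hg => ?_⟩
  obtain ⟨hs, ht, -, hB, hC, hD⟩ := hG g hg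
  obtain ⟨C1, C2, -, -⟩ := hbb.1 g.2 ht
  obtain ⟨-, n1, n2⟩ := lvl_num r ρ T _ hr hT hρT hD
  obtain ⟨k1, k2, k3⟩ := hH g hg
  exact ⟨hB.1, hC.1, DD_left a b _ _ _ (C1.trans C2) le_rfl, n1, n2, k1, k2, k3⟩

end Pool.Agent.P.MP_d1c5d3_co.CM
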