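import Pool.Agent.P.MP_d1c5d3_co.CM.Iface

/-! Step NBH. -/

set_option autoImplicit false

namespace Pool.Agent.P.MP_d1c5d3_co.CM

open Finset

lemma nbh_step (a : ℕ → Pt) (h : Wk a) (i k : ℕ) : nm (a (i + k) - a i) ≤ k := by
  induction k with
  | zero => simp [nm]
  | succ k ih =>
    have h1 := nm_tri (a (i + (k + 1))) (a (i + k)) (a i)
    have h2 : nm (a (i + (k + 1)) - a (i + k)) ≤ 1 := by
      rw [nm_le]
      have := h (i + k)
      have e : i + (k + 1) = i + k + 1 := rfl
      rw [e]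
      simp only [Prod.fst_sub, Prod.snd_sub]
      have p1 := abs_nonneg ((a (i + k + 1)).1 - (a (i + k)).1)
      have p2 := abs_nonneg ((a (i + k + 1)).2 - (a (i + k)).2)
      constructor <;> linarith
    push_cast
    linarith

theorem p_NBH :
    S_NBH := by
  intro a m r hw hr
  obtain ⟨R, rfl⟩ : ∃ R : ℕ, r = R := ⟨r.toNat, by omega⟩
  have hR : 0 < R := by exact_mod_cast hr
  have hsub : nb ((range (m + 1)).image a) R ⊆
      (range (m / R + 1)).biUnion fun l => ball (a (R * l)) (2 * R) := by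
    intro z hz
    rw [mem_nb] at hz
    obtain ⟨c, hc, hzc⟩ := hz
    obtain ⟨i, hi, rfl⟩ := mem_image.1 hc
    rw [mem_range] at hi
    rw [mem_biUnion]
    refine ⟨i / R, mem_range.2 (Nat.lt_succ_of_le (Nat.div_le_div_right (by omega))), ?_⟩
    rw [mem_ball]
    have h1 := nm_tri z (a i) (a (R * (i / R)))
    have h2 := nbh_step a hw (R * (i / R)) (i % R)
    rw [Nat.div_add_mod] at h2
    have h3 : ((i % R : ℕ) : ℤ) ≤ R := by exact_mod_cast (Nat.mod_lt i hR).le
    linarith
  have hc : ((nb ((range (m + 1)).image a) R).card : ℤ) ≤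
      ∑ l ∈ range (m / R + 1), ((ball (a (R * l)) (2 * R)).card : ℤ) := by
    have := (card_le_card hsub).trans card_biUnion_le
    exact_mod_cast this
  have hb : ∀ l ∈ range (m / R + 1), ((ball (a (R * l)) (2 * R)).card : ℤ) ≤ 25 * (R : ℤ) ^ 2 := by
    intro l _
    rw [card_ball _ _ (by positivity)]
    nlinarith
  have hs := sum_le_card_nsmul _ _ _ hb
  rw [card_range, nsmul_eq_mul] at hs
  have hd : ((m / R : ℕ) : ℤ) * R ≤ m := by exact_mod_cast Nat.div_mul_le_self m R
  have hq : (((m / R + 1 : ℕ)) : ℤ) = ((m / R : ℕ) : ℤ) + 1 := by push_cast; rfl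
  rw [hq] at hs
  generalize ((m / R : ℕ) : ℤ) = q at hd hs
  have : (q + 1) * (25 * (R : ℤ) ^ 2) ≤ 25 * R * (m + R) := by nlinarith
  linarith

end Pool.Agent.P.MP_d1c5d3_co.CM
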