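import Pool.Agent.P.MP_d1c5d3_co.CM.Iface

/-! Step NUM. -/

set_option autoImplicit false

namespace Pool.Agent.P.MP_d1c5d3_co.CM

open Finset

lemma num_a (k : ℕ) : (k : ℝ) ≤ 2 * (3 / 2) ^ k := by
  have := one_add_mul_le_pow (a := (1 / 2 : ℝ)) (by norm_num) k
  norm_num at this
  linarith

lemma num_b (θ : ℝ) (h3 : 3 / 4 ≤ θ) (h1 : θ < 1) :
    ∃ C c : ℝ, 0 < C ∧ 0 < c ∧ ∀ n : ℕ, 1 ≤ n → ∃ k : ℕ,
    2 ^ (k + k * (12 + 2 * k)) ≤ 2 * n ∧
    36 * (23 * θ ^ k + 460 * k / 2 ^ k) ≤ C * Real.exp (-c * √(Real.log n)) := by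
  classical
  have h0 : 0 < θ := by linarith
  have hl : Real.log θ < 0 := Real.log_neg h0 h1
  refine ⟨36 * 943 / θ, -Real.log θ / 4, by positivity, by linarith, fun n hn => ?_⟩
  have hex : ∃ k : ℕ, 2 * n < 2 ^ ((k + 1) + (k + 1) * (12 + 2 * (k + 1))) :=
    ⟨2 * n, lt_of_lt_of_le Nat.lt_two_pow_self (Nat.pow_le_pow_right (by norm_num) (by omega))⟩
  obtain ⟨k, hk0, hk1⟩ : ∃ k : ℕ, 2 ^ (k + k * (12 + 2 * k)) ≤ 2 * n ∧
      2 * n < 2 ^ ((k + 1) + (k + 1) * (12 + 2 * (k + 1))) := by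
    refine ⟨Nat.find hex, ?_, Nat.find_spec hex⟩
    rcases Nat.eq_zero_or_pos (Nat.find hex) with h | h
    · rw [h]; omega
    · have := Nat.find_min hex (m := Nat.find hex - 1) (by omega)
      rw [Nat.sub_add_cancel h] at this
      omega
  clear hex
  refine ⟨k, hk0, ?_⟩
  clear hk0
  · have hn0 : (0 : ℝ) < n := by exact_mod_cast hn
    have a1 : n ≤ 2 ^ (16 * (k + 1) ^ 2) :=
      le_trans (by omega) (hk1.le.trans (Nat.pow_le_pow_right (by norm_num) (by nlinarith)))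
    have a2 : Real.log n ≤ (4 * (k + 1)) ^ 2 := by
      have b1 : (n : ℝ) ≤ 2 ^ (16 * (k + 1) ^ 2) := by exact_mod_cast a1
      have b2 := Real.log_le_log hn0 b1
      rw [Real.log_pow] at b2
      clear b1 a1 hk1
      have b3 : Real.log 2 ≤ 1 := by linarith [Real.log_two_lt_d9]
      have b4 : ((16 * (k + 1) ^ 2 : ℕ) : ℝ) * Real.log 2 ≤ (16 * (k + 1) ^ 2 : ℕ) * 1 := by gcongr
      have b5 : ((16 * (k + 1) ^ 2 : ℕ) : ℝ) = (4 * (k + 1)) ^ 2 := by push_cast; ring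
      rw [b5] at b2 b4
      linarith
    clear a1 hk1
    have a3 : √(Real.log n) ≤ 4 * (k + 1) := Real.sqrt_le_iff.2 ⟨by positivity, a2⟩
    have a4 : θ ^ (k + 1) ≤ Real.exp (-(-Real.log θ / 4) * √(Real.log n)) := by
      rw [← Real.exp_log (pow_pos h0 (k + 1)), Real.log_pow]
      refine Real.exp_le_exp.2 ?_
      push_cast
      have := mul_le_mul_of_nonneg_left a3 (neg_nonneg.2 hl.le)
      linarith
    have a5 : (k : ℝ) / 2 ^ k ≤ 2 * θ ^ k := by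
      rw [div_le_iff₀ (by positivity), mul_assoc, ← mul_pow]
      refine (num_a k).trans ?_
      gcongr
      linarith
    calc 36 * (23 * θ ^ k + 460 * k / 2 ^ k) ≤ 36 * 943 * θ ^ k := by
          rw [mul_div_assoc]; linarith
      _ = 36 * 943 / θ * θ ^ (k + 1) := by field_simp; ring
      _ ≤ _ := by gcongr

theorem p_NUM :
    S_NUM :=
  num_b _ (by norm_num) (by norm_num)

end Pool.Agent.P.MP_d1c5d3_co.CM
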