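import Pool.Agent.P.MP_d1c5d3_co.CM.Iface

/-! Step SHIFT. -/

set_option autoImplicit false

namespace Pool.Agent.P.MP_d1c5d3_co.CM

open Finset

lemma shift_step {e : Pt} (h : |e.1| + |e.2| ≤ 1) :
    e = (0, 0) ∨ e = (1, 0) ∨ e = (-1, 0) ∨ e = (0, 1) ∨ e = (0, -1) := by
  obtain ⟨x, y⟩ := e
  simp only [Prod.mk.injEq] at h ⊢
  rcases abs_cases x with h1 | h1 <;> rcases abs_cases y with h2 | h2 <;> omega

lemma shift_tel (a b : ℕ → Pt) (m n : ℕ) (c : Pt → Pt → ℤ) :
    ∑ i ∈ range m, ∑ j ∈ range n,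
      (c (a i + b j) (a (i + 1) - a i) + c (a (i + 1) + b j) (b (j + 1) - b j) -
        c (a i + b (j + 1)) (a (i + 1) - a i) - c (a i + b j) (b (j + 1) - b j)) =
    ∑ i ∈ range m, (c (a i + b 0) (a (i + 1) - a i) - c (a i + b n) (a (i + 1) - a i)) +
      ∑ j ∈ range n, (c (a m + b j) (b (j + 1) - b j) - c (a 0 + b j) (b (j + 1) - b j)) := by
  have h1 : ∀ i, ∑ j ∈ range n,
      (c (a i + b j) (a (i + 1) - a i) - c (a i + b (j + 1)) (a (i + 1) - a i)) =
      c (a i + b 0) (a (i + 1) - a i) - c (a i + b n) (a (i + 1) - a i) := fun i =>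
    sum_range_sub' (fun j => c (a i + b j) (a (i + 1) - a i)) n
  have h2 : ∀ j, ∑ i ∈ range m,
      (c (a (i + 1) + b j) (b (j + 1) - b j) - c (a i + b j) (b (j + 1) - b j)) =
      c (a m + b j) (b (j + 1) - b j) - c (a 0 + b j) (b (j + 1) - b j) := fun j =>
    sum_range_sub (fun i => c (a i + b j) (b (j + 1) - b j)) m
  simp only [← h1, ← h2]
  rw [sum_comm (s := range n), ← sum_add_distrib]
  refine sum_congr rfl fun i _ => ?_
  rw [← sum_add_distrib]
  refine sum_congr rfl fun j _ => ?_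
  ring

lemma shift_gen (a b : ℕ → Pt) (m n : ℕ) (φ : Pt → ℤ) (d : Pt) (ha : Wk a) (hb : Wk b)
    (c : Pt → Pt → ℤ)
    (hc : ∀ P e f : Pt, |e.1| + |e.2| ≤ 1 → |f.1| + |f.2| ≤ 1 →
      dt e f * (φ (cor P e f) - φ (cor P e f - d)) = c P e + c (P + e) f - c (P + f) e - c P f)
    (hper : ∀ w, (∀ z, φ (z + w) = φ z) → ∀ P e, c (P + w) e = c P e)
    (hloc : ∀ γ e : Pt, |e.1| + |e.2| ≤ 1 → (∀ z, nm (z - γ) ≤ 1 → φ z = 0) → c γ e = 0)
    (h : ((∀ z, φ (z + (a m - a 0)) = φ z) ∧ ∀ z, φ (z + (b n - b 0)) = φ z) ∨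
      ∀ γ z, Bd a b m n γ → nm (z - γ) ≤ 1 → φ z = 0) :
    WW a b m n (fun z => φ (z - d)) = WW a b m n φ := by
  have ha' : ∀ i, |(a (i + 1) - a i).1| + |(a (i + 1) - a i).2| ≤ 1 := fun i => ha i
  have hb' : ∀ i, |(b (i + 1) - b i).1| + |(b (i + 1) - b i).2| ≤ 1 := fun i => hb i
  have key : WW a b m n φ - WW a b m n (fun z => φ (z - d)) =
      ∑ i ∈ range m, (c (a i + b 0) (a (i + 1) - a i) - c (a i + b n) (a (i + 1) - a i)) +
      ∑ j ∈ range n, (c (a m + b j) (b (j + 1) - b j) - c (a 0 + b j) (b (j + 1) - b j)) := by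
    rw [← shift_tel, WW, WW, ← sum_sub_distrib]
    refine sum_congr rfl fun i _ => ?_
    rw [← sum_sub_distrib]
    refine sum_congr rfl fun j _ => ?_
    rw [← mul_sub, hc _ _ _ (ha' i) (hb' j)]
    have e1 : a i + b j + (a (i + 1) - a i) = a (i + 1) + b j := by abel
    have e2 : a i + b j + (b (j + 1) - b j) = a i + b (j + 1) := by abel
    rw [e1, e2]
  have z : WW a b m n φ - WW a b m n (fun z => φ (z - d)) = 0 := by
    rw [key]
    rcases h with ⟨h1, h2⟩ | h
    · rw [sum_eq_zero, sum_eq_zero, add_zero]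
      · intro j _
        have e : a m + b j = a 0 + b j + (a m - a 0) := by abel
        rw [e, hper _ h1, sub_self]
      · intro i _
        have e : a i + b n = a i + b 0 + (b n - b 0) := by abel
        rw [e, hper _ h2, sub_self]
    · rw [sum_eq_zero, sum_eq_zero, add_zero]
      · intro j hj
        have hj' : j ≤ n := (mem_range.1 hj).le
        rw [hloc _ _ (hb' j) fun z => h _ z (Or.inr ⟨j, hj', Or.inr rfl⟩),
          hloc _ _ (hb' j) fun z => h _ z (Or.inr ⟨j, hj', Or.inl rfl⟩), sub_self]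
      · intro i hi
        have hi' : i ≤ m := (mem_range.1 hi).le
        rw [hloc _ _ (ha' i) fun z => h _ z (Or.inl ⟨i, hi', Or.inl rfl⟩),
          hloc _ _ (ha' i) fun z => h _ z (Or.inl ⟨i, hi', Or.inr rfl⟩), sub_self]
  omega

theorem p_SHIFT :
    S_SHIFT := by
  intro a b m n φ d ha hb hd h
  rcases hd with rfl | rfl
  · refine shift_gen a b m n φ _ ha hb (fun P e => e.2 * φ (P.1 - 1, P.2 + min e.2 0))
      ?_ ?_ ?_ h
    · rintro ⟨x, y⟩ e f he hf
      rcases shift_step he with rfl | rfl | rfl | rfl | rfl <;>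
        rcases shift_step hf with rfl | rfl | rfl | rfl | rfl <;>
        simp [cor, dt] <;> ring_nf
    · rintro ⟨w1, w2⟩ hw ⟨x, y⟩ e
      have := hw (x - 1, y + min e.2 0)
      simp only [Prod.mk_add_mk] at this ⊢
      rw [← this]
      congr 3 <;> ring
    · rintro ⟨x, y⟩ e he hz
      rw [hz, mul_zero]
      rcases shift_step he with rfl | rfl | rfl | rfl | rfl <;> simp [nm]
  · refine shift_gen a b m n φ _ ha hb (fun P e => - e.1 * φ (P.1 + min e.1 0, P.2 - 1))
      ?_ ?_ ?_ h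
    · rintro ⟨x, y⟩ e f he hf
      rcases shift_step he with rfl | rfl | rfl | rfl | rfl <;>
        rcases shift_step hf with rfl | rfl | rfl | rfl | rfl <;>
        simp [cor, dt] <;> ring_nf
    · rintro ⟨w1, w2⟩ hw ⟨x, y⟩ e
      have := hw (x + min e.1 0, y - 1)
      simp only [Prod.mk_add_mk] at this ⊢
      rw [← this]
      congr 3 <;> ring
    · rintro ⟨x, y⟩ e he hz
      rw [hz, mul_zero]
      rcases shift_step he with rfl | rfl | rfl | rfl | rfl <;> simp [nm]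

end Pool.Agent.P.MP_d1c5d3_co.CM
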