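import Pool.Agent.P.MP_d1c5d3_co.CM.Iface

/-! Step SPLIT. -/

set_option autoImplicit false

namespace Pool.Agent.P.MP_d1c5d3_co.CM

open Finset

lemma split_sign (a b c : ℤ) (h1 : a * c < 0) (h2 : ¬ a * b < 0) : |b| ≤ |c - b| := by
  rw [not_lt] at h2
  rcases lt_trichotomy a 0 with h | h | h
  · have hc : 0 < c := by by_contra hc; nlinarith
    have hb : b ≤ 0 := by by_contra hb; nlinarith
    rw [abs_of_nonpos hb, abs_of_nonneg (by omega)]
    omega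
  · simp [h] at h1
  · have hc : c < 0 := by by_contra hc; nlinarith
    have hb : 0 ≤ b := by by_contra hb; nlinarith
    rw [abs_of_nonneg hb, abs_of_nonpos (by omega)]
    omega

lemma split_cnt {α : Type} (G : Finset α) (P A B : α → Prop) [DecidablePred P] [DecidablePred A]
    [DecidablePred B] :
    (G.filter P).card ≤ (G.filter fun g => P g ∧ ¬ A g ∧ ¬ B g).card + (G.filter A).card +
      (G.filter B).card := by
  classical
  refine le_trans (card_le_card (t := (G.filter fun g => P g ∧ ¬ A g ∧ ¬ B g) ∪ G.filter A ∪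
    G.filter B) fun g hg => ?_) ((card_union_le _ _).trans
      (Nat.add_le_add_right (card_union_le _ _) _))
  simp only [mem_filter, mem_union] at hg ⊢
  tauto

theorem p_SPLIT (hDET : S_DET) :
    S_SPLIT := by
  classical
  intro G u u' D ρ hρ hG
  by_contra hcon
  rw [not_or] at hcon
  obtain ⟨hL, hR⟩ := hcon
  apply hR
  obtain ⟨y, hy⟩ : ∃ y : ℕ → Pt, ∀ k, y k = (ρ - k, min (k : ℤ) (2 * ρ - k)) := ⟨_, fun _ => rfl⟩
  have y1 : ∀ k : ℕ, (k : ℤ) ≤ 2 * ρ → nm (y k) ≤ ρ ∧ ρ ≤ 2 * nm (y k) := by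
    intro k hk
    simp only [hy, nm, abs_eq_max_neg]
    omega
  have y2 : ∀ k : ℕ, nm (y (k + 1) - y k) ≤ 1 := by
    intro k
    simp only [hy, nm, abs_eq_max_neg, Prod.fst_sub, Prod.snd_sub]
    omega
  obtain ⟨n, hn⟩ : ∃ n : ℕ → ℕ, ∀ k,
      n k = (G.filter fun g => |dt (y k) (u g.1)| ≤ 4 * D g).card := ⟨_, fun _ => rfl⟩
  obtain ⟨f, hf⟩ : ∃ f : ℕ → ℕ, ∀ k,
      f k = (G.filter fun g => dt (y 0) (u g.1) * dt (y k) (u g.1) < 0).card := ⟨_, fun _ => rfl⟩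
  have n1 : ∀ k : ℕ, (k : ℤ) ≤ 2 * ρ → 40 * n k < G.card := by
    intro k hk
    by_contra h
    exact hL ⟨y k, (y1 k hk).1, (y1 k hk).2, by rw [← hn]; omega⟩
  have f0 : f 0 = 0 := by
    rw [hf, card_eq_zero, filter_eq_empty_iff]
    intro g _
    exact not_lt.2 (mul_self_nonneg _)
  have f1 : ∀ k, f (k + 1) ≤ f k + n k := by
    intro k
    rw [hf, hf, hn]
    refine le_trans (card_le_card fun g hg => ?_) (card_union_le _ _)
    simp only [mem_filter, mem_union] at hg ⊢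
    by_cases h : dt (y 0) (u g.1) * dt (y k) (u g.1) < 0
    · exact Or.inl ⟨hg.1, h⟩
    · refine Or.inr ⟨hg.1, (split_sign _ _ _ hg.2 h).trans ?_⟩
      obtain ⟨g1, -, -, g4⟩ := hG g hg.1
      have e : dt (y (k + 1)) (u g.1) - dt (y k) (u g.1) = dt (y (k + 1) - y k) (u g.1) := by
        simp only [dt, Prod.fst_sub, Prod.snd_sub]
        ring
      have h1 := hDET.1 (y (k + 1) - y k) (u g.1)
      have h2 := y2 k
      rw [e]
      rw [g1] at h1
      nlinarith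
  obtain ⟨m, hm⟩ : ∃ m : ℕ, ((m + 1 : ℕ) : ℤ) = 2 * ρ := ⟨(2 * ρ - 1).toNat, by omega⟩
  have f2 : G.card ≤ f (m + 1) + n 0 := by
    rw [hf, hn]
    refine le_trans (card_le_card fun g hg => ?_) (card_union_le _ _)
    simp only [mem_filter, mem_union]
    by_cases h : |dt (y 0) (u g.1)| ≤ 4 * D g
    · exact Or.inr ⟨hg, h⟩
    · refine Or.inl ⟨hg, ?_⟩
      obtain ⟨-, -, -, g4⟩ := hG g hg
      have e : dt (y (m + 1)) (u g.1) = - dt (y 0) (u g.1) := by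
        have a1 : min ((m + 1 : ℕ) : ℤ) (2 * ρ - ((m + 1 : ℕ) : ℤ)) = 0 := by omega
        have a2 : min ((0 : ℕ) : ℤ) (2 * ρ - ((0 : ℕ) : ℤ)) = 0 := by omega
        simp only [dt, hy, a1, a2]
        rw [hm]
        push_cast
        ring
      have h0 : dt (y 0) (u g.1) ≠ 0 := by
        intro h0
        rw [h0, abs_zero] at h
        omega
      rw [e, mul_neg, neg_lt_zero]
      exact mul_self_pos.2 h0
  have n0 := n1 0 (by omega)
  have hex : ∃ k, G.card < 2 * f (k + 1) := ⟨m, by omega⟩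
  obtain ⟨k, hk1, hk2, hk3⟩ : ∃ k : ℕ, G.card < 2 * f (k + 1) ∧ 2 * f k ≤ G.card ∧ k ≤ m := by
    refine ⟨Nat.find hex, Nat.find_spec hex, ?_, Nat.find_min' hex (by omega)⟩
    rcases Nat.eq_zero_or_pos (Nat.find hex) with h | h
    · rw [h, f0]; omega
    · have := Nat.find_min hex (Nat.sub_lt h Nat.one_pos)
      rw [Nat.sub_add_cancel h] at this
      omega
  have hk : (k : ℤ) ≤ 2 * ρ := by omega
  have nk := n1 k hk
  have fk := f1 k
  have c0 := split_cnt G (fun g => dt (y 0) (u g.1) * dt (y k) (u g.1) < 0)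
    (fun g => |dt (y 0) (u g.1)| ≤ 4 * D g) (fun g => |dt (y k) (u g.1)| ≤ 4 * D g)
  have c1 := split_cnt G (fun g => ¬ dt (y 0) (u g.1) * dt (y k) (u g.1) < 0)
    (fun g => |dt (y 0) (u g.1)| ≤ 4 * D g) (fun g => |dt (y k) (u g.1)| ≤ 4 * D g)
  have c2 := card_filter_add_card_filter_not (s := G)
    (fun g => dt (y 0) (u g.1) * dt (y k) (u g.1) < 0)
  rw [← hn, ← hn] at c0 c1
  rw [← hf] at c0 c2
  have tr : ∀ g ∈ G, ¬ |dt (y 0) (u g.1)| ≤ 4 * D g → ¬ |dt (y k) (u g.1)| ≤ 4 * D g →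
      (dt (y 0) (u g.1) * dt (y k) (u g.1) < 0 ↔ dt (y 0) (u' g.2) * dt (y k) (u' g.2) < 0) := by
    intro g hg h1 h2
    obtain ⟨g1, g2, g3, -⟩ := hG g hg
    exact hDET.2.2 _ _ _ _ ρ (D g) hρ g1 g2 (y1 0 (by omega)).1 (y1 k hk).1 g3 (not_le.1 h1)
      (not_le.1 h2)
  refine ⟨fun s => dt (y 0) (u s) * dt (y k) (u s) < 0,
    fun s => dt (y 0) (u' s) * dt (y k) (u' s) < 0,
    G.filter fun g => dt (y 0) (u g.1) * dt (y k) (u g.1) < 0 ∧
      ¬ |dt (y 0) (u g.1)| ≤ 4 * D g ∧ ¬ |dt (y k) (u g.1)| ≤ 4 * D g,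
    G.filter fun g => ¬ dt (y 0) (u g.1) * dt (y k) (u g.1) < 0 ∧
      ¬ |dt (y 0) (u g.1)| ≤ 4 * D g ∧ ¬ |dt (y k) (u g.1)| ≤ 4 * D g,
    filter_subset _ _, filter_subset _ _, ?_, by omega, by omega, ?_, ?_⟩
  · rw [disjoint_filter]
    exact fun g _ h h' => h'.1 h.1
  · intro g hg
    rw [mem_filter] at hg
    exact ⟨hg.2.1, (tr g hg.1 hg.2.2.1 hg.2.2.2).1 hg.2.1⟩
  · intro g hg
    rw [mem_filter] at hg
    exact ⟨hg.2.1, fun h => hg.2.1 ((tr g hg.1 hg.2.2.1 hg.2.2.2).2 h)⟩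

end Pool.Agent.P.MP_d1c5d3_co.CM
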