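import Pool.Agent.P.MP_d1c5d3_co.CM.Iface

/-! Step STEP. -/

set_option autoImplicit false

namespace Pool.Agent.P.MP_d1c5d3_co.CM

open Finset

lemma step_nb_mono {A B : Finset Pt} {r s : ℤ} (h : A ⊆ B) (hr : r ≤ s) : nb A r ⊆ nb B s := by
  intro z hz
  rw [mem_nb] at hz ⊢
  obtain ⟨c, hc, h1⟩ := hz
  exact ⟨c, h hc, h1.trans hr⟩

lemma step_quarter (a0 a1 b0 b1 : ℝ) (h0 : 0 ≤ a0) (h1 : 0 ≤ a1) (k0 : 0 ≤ b0) (k1 : 0 ≤ b1) :
    a0 * b0 ≤ (a0 + a1) * (b0 + b1) / 4 ∨ a1 * b1 ≤ (a0 + a1) * (b0 + b1) / 4 := by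
  by_contra hc
  push Not at hc
  obtain ⟨c0, c1⟩ := hc
  have hp : 0 ≤ (a0 + a1) * (b0 + b1) / 4 := by positivity
  have h2 : ((a0 + a1) * (b0 + b1) / 4) * ((a0 + a1) * (b0 + b1) / 4) < (a0 * b0) * (a1 * b1) :=
    mul_lt_mul'' c0 c1 hp hp
  have h3 : a0 * a1 ≤ (a0 + a1) ^ 2 / 4 := by nlinarith [sq_nonneg (a0 - a1)]
  have h4 : b0 * b1 ≤ (b0 + b1) ^ 2 / 4 := by nlinarith [sq_nonneg (b0 - b1)]
  have h5 : (a0 * a1) * (b0 * b1) ≤ ((a0 + a1) ^ 2 / 4) * ((b0 + b1) ^ 2 / 4) :=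
    mul_le_mul h3 h4 (by positivity) (by positivity)
  nlinarith

lemma step_half (g g' w w' e e' c : ℝ) (hg : 0 ≤ g) (h : 17 * g ≤ 40 * g') (hw' : 0 ≤ w')
    (hw : w' ≤ w / 4) (he' : 0 ≤ e') (he : e' ≤ e) (hc : 0 ≤ c)
    (H : g' ^ 3 ≤ w' ^ 2 * e' * c) : g ^ 3 ≤ w ^ 2 * e * c := by
  have h1 : g ^ 3 ≤ (40 / 17 * g') ^ 3 := pow_le_pow_left₀ hg (by linarith) 3
  have h2 : w' ^ 2 ≤ (w / 4) ^ 2 := pow_le_pow_left₀ hw' hw 2
  have h3 : w' ^ 2 * e' * c ≤ (w / 4) ^ 2 * e * c := by gcongr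
  have h4 : 0 ≤ w ^ 2 * e * c := by
    have : 0 ≤ e := he'.trans he
    positivity
  nlinarith

theorem p_STEP (hDET : S_DET) (hVIT : S_VIT) (hSPLIT : S_SPLIT) :
    S_STEP := by
  classical
  intro G0 x r ρ c hr hrρ hc hL hP
  obtain ⟨u, u', D, H, hL⟩ := hL
  have hρ : 0 < ρ := hr.trans_le hrρ
  have hq : (0 : ℝ) ≤ c * (1 - 1 / 10 ^ 10) := mul_nonneg hc (by norm_num)
  suffices h : ∀ (N : ℕ) (X Y : Finset ℕ) (G : Finset (ℕ × ℕ)), G.card = N → G ⊆ G0 →
      G ⊆ X ×ˢ Y → (G.card : ℝ) ^ 3 ≤ ((X.card : ℝ) * Y.card) ^ 2 *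
        (nb (G.image x) (4 * ρ)).card * (c * (1 - 1 / 10 ^ 10)) from
    fun X Y G h1 h2 => h _ X Y G rfl h1 h2
  intro N
  induction N using Nat.strong_induction_on with
  | _ N ih =>
  intro X Y G hN hG hXY
  rcases Nat.eq_zero_or_pos N with h0 | hpos
  · rw [hN, h0]
    simp only [Nat.cast_zero, ne_eq, OfNat.ofNat_ne_zero, not_false_eq_true, zero_pow]
    positivity
  rcases hSPLIT G u u' D ρ hρ (fun g hg => by
      obtain ⟨a, b, c', d, _⟩ := hL g (hG hg)
      exact ⟨a, b, c', d⟩) with ⟨y, hy1, hy2, hy3⟩ | ⟨p, p', A0, A1, s0, s1, hd, c0, c1, m0, m1⟩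
  · set G1 := G.filter fun g => |dt y (u g.1)| ≤ 4 * D g with hG1
    have hsub : G1 ⊆ G := filter_subset _ _
    have hH : ∀ g ∈ G1, H g ⊆ strip (x g) y (4 * ρ) (22 * D g) := fun g hg =>
      (hL g (hG (hsub hg))).2.2.2.2.2.2.2 y hy1 (mem_filter.1 hg).2
    have hV := hVIT G1 x D H y ρ hρ hy2 (fun g hg =>
      ⟨(hL g (hG (hsub hg))).2.2.2.1, (hL g (hG (hsub hg))).2.2.2.2.2.1, hH g hg⟩)
    set U := G1.biUnion fun g => strip (x g) y (4 * ρ) (22 * D g) with hU
    set HH := G1.biUnion H with hHH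
    set E' := nb (G.image x) (4 * ρ) with hE'
    set E := nb (G.image x) (4 * r) with hE
    have hEE : E ⊆ E' := step_nb_mono Subset.rfl (by omega)
    have hHE : HH ⊆ E' := by
      intro z hz
      obtain ⟨g, hg, hz⟩ := mem_biUnion.1 hz
      exact (mem_nb _ _ _).2 ⟨x g, mem_image_of_mem _ (hsub hg),
        ((mem_strip _ _ _ _ _).1 (hH g hg hz)).1⟩
    have hdis : Disjoint E HH := by
      rw [disjoint_right]
      intro z hz hz'
      obtain ⟨g, hg, hz⟩ := mem_biUnion.1 hz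
      exact (hL g (hG (hsub hg))).2.2.2.2.2.2.1 z hz
        (step_nb_mono (image_subset_image hG) le_rfl hz')
    have hcard : E.card + HH.card ≤ E'.card := by
      rw [← card_union_of_disjoint hdis]
      exact card_le_card (union_subset hEE hHE)
    have hW : (0 : ℝ) ≤ ((X.card : ℝ) * Y.card) ^ 2 := by positivity
    rcases le_or_gt E'.card (128000 * U.card) with hb | hb
    · have h1 := hP X Y G hG hXY
      have h2 : (E.card : ℝ) ≤ E'.card * (1 - 1 / 10 ^ 10) := by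
        have a1 : (E.card : ℝ) + HH.card ≤ E'.card := by exact_mod_cast hcard
        have a2 : (E'.card : ℝ) ≤ 128000 * U.card := by exact_mod_cast hb
        have a3 : (U.card : ℝ) ≤ 22050 * HH.card := by exact_mod_cast hV
        have a4 : (0 : ℝ) ≤ HH.card := by positivity
        linarith
      calc (G.card : ℝ) ^ 3 ≤ ((X.card : ℝ) * Y.card) ^ 2 * E.card * c := h1
        _ ≤ ((X.card : ℝ) * Y.card) ^ 2 * (E'.card * (1 - 1 / 10 ^ 10)) * c := by gcongr
        _ = _ := by ring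
    · have h1 := hP X Y G1 (hsub.trans hG) (hsub.trans hXY)
      have hsU : nb (G1.image x) (4 * r) ⊆ U := by
        intro z hz
        obtain ⟨w, hw, hz⟩ := (mem_nb _ _ _).1 hz
        obtain ⟨g, hg, rfl⟩ := mem_image.1 hw
        refine mem_biUnion.2 ⟨g, hg, (mem_strip _ _ _ _ _).2 ⟨by omega, ?_⟩⟩
        have a1 := hDET.1 y (z - x g)
        have a2 := (hL g (hG (hsub hg))).2.2.2.2.1
        have a3 : 2 * nm y * nm (z - x g) ≤ 2 * ρ * (4 * r) := by
          have := nm_nonneg y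
          have := nm_nonneg (z - x g)
          gcongr
        linarith
      have h2 : ((nb (G1.image x) (4 * r)).card : ℝ) ≤ E'.card / 128000 := by
        have a1 : ((nb (G1.image x) (4 * r)).card : ℝ) ≤ U.card := by
          exact_mod_cast card_le_card hsU
        have a2 : (128000 * U.card : ℝ) ≤ E'.card := by exact_mod_cast hb.le
        linarith
      have h3 : (G.card : ℝ) ^ 3 ≤ (40 * G1.card) ^ 3 :=
        pow_le_pow_left₀ (by positivity) (by exact_mod_cast hy3) 3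
      have h4 : ((X.card : ℝ) * Y.card) ^ 2 * (nb (G1.image x) (4 * r)).card * c ≤
          ((X.card : ℝ) * Y.card) ^ 2 * (E'.card / 128000) * c := by gcongr
      have h5 : (0 : ℝ) ≤ ((X.card : ℝ) * Y.card) ^ 2 * E'.card * c := by positivity
      nlinarith
  · have hun : A0.card + A1.card ≤ G.card := by
      rw [← card_union_of_disjoint hd]
      exact card_le_card (union_subset s0 s1)
    have i0 := ih A0.card (by omega) (X.filter p) (Y.filter p') A0 rfl (s0.trans hG) (by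
      intro g hg
      have := mem_product.1 (hXY (s0 hg))
      exact mem_product.2 ⟨mem_filter.2 ⟨this.1, (m0 g hg).1⟩, mem_filter.2 ⟨this.2, (m0 g hg).2⟩⟩)
    have i1 := ih A1.card (by omega) (X.filter fun s => ¬ p s) (Y.filter fun s => ¬ p' s) A1 rfl
      (s1.trans hG) (by
      intro g hg
      have := mem_product.1 (hXY (s1 hg))
      exact mem_product.2 ⟨mem_filter.2 ⟨this.1, (m1 g hg).1⟩, mem_filter.2 ⟨this.2, (m1 g hg).2⟩⟩)
    have eX : ((X.filter p).card : ℝ) + (X.filter fun s => ¬ p s).card = X.card := by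
      exact_mod_cast card_filter_add_card_filter_not (s := X) p
    have eY : ((Y.filter p').card : ℝ) + (Y.filter fun s => ¬ p' s).card = Y.card := by
      exact_mod_cast card_filter_add_card_filter_not (s := Y) p'
    have hq4 := step_quarter ((X.filter p).card : ℝ) (X.filter fun s => ¬ p s).card
      ((Y.filter p').card : ℝ) (Y.filter fun s => ¬ p' s).card (by positivity) (by positivity)
      (by positivity) (by positivity)
    rw [eX, eY] at hq4
    rcases hq4 with hq4 | hq4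
    · exact step_half _ _ _ _ _ _ _ (by positivity) (by exact_mod_cast c0) (by positivity) hq4
        (by positivity)
        (by exact_mod_cast card_le_card (step_nb_mono (image_subset_image s0) le_rfl)) hq i0
    · exact step_half _ _ _ _ _ _ _ (by positivity) (by exact_mod_cast c1) (by positivity) hq4
        (by positivity)
        (by exact_mod_cast card_le_card (step_nb_mono (image_subset_image s1) le_rfl)) hq i1

end Pool.Agent.P.MP_d1c5d3_co.CM
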