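import Pool.Agent.P.MP_d1c5d3_co.CM.Iface

/-! Step STRIP. -/

set_option autoImplicit false

namespace Pool.Agent.P.MP_d1c5d3_co.CM

open Finset

lemma strip_int (T : Finset ℤ) (ρ K : ℤ) (hρ : 0 < ρ) (hK : 0 ≤ K)
    (h : ∀ a ∈ T, ∀ b ∈ T, (a - b) * ρ ≤ K) : (T.card : ℤ) * ρ ≤ K + ρ := by
  rcases T.eq_empty_or_nonempty with rfl | hT
  · simp only [card_empty, Nat.cast_zero, zero_mul]
    omega
  have h1 : T ⊆ Icc (T.min' hT) (T.max' hT) := fun x hx =>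
    mem_Icc.2 ⟨min'_le _ _ hx, le_max' _ _ hx⟩
  have h2 : (T.card : ℤ) ≤ T.max' hT - T.min' hT + 1 := by
    have h3 := card_le_card h1
    have h4 := min'_le_max' T hT
    rw [Int.card_Icc] at h3
    omega
  have h5 := h _ (max'_mem T hT) _ (min'_mem T hT)
  nlinarith

lemma strip_gen (S : Finset Pt) (f g : Pt → ℤ) (m R ρ K : ℤ) (hρ : 0 < ρ) (hK : 0 ≤ K)
    (hR : 0 ≤ R) (hi : ∀ z z', f z = f z' → g z = g z' → z = z')
    (hf : ∀ z ∈ S, |f z - m| ≤ R)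
    (h : ∀ z ∈ S, ∀ z' ∈ S, f z = f z' → (g z - g z') * ρ ≤ K) :
    (S.card : ℤ) * ρ ≤ (2 * R + 1) * (K + ρ) := by
  have h1 : S.card = ∑ t ∈ Icc (m - R) (m + R), (S.filter fun z => f z = t).card :=
    card_eq_sum_card_fiberwise fun z hz => by
      have := abs_le.1 (hf z hz)
      simp only [coe_Icc, Set.mem_Icc]
      omega
  have h2 : ∀ t ∈ Icc (m - R) (m + R), ((S.filter fun z => f z = t).card : ℤ) * ρ ≤ K + ρ := by
    intro t _
    rw [← card_image_of_injOn (f := g) fun z hz z' hz' e => hi z z' (by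
      rw [(mem_filter.1 hz).2, (mem_filter.1 hz').2]) e]
    refine strip_int _ _ _ hρ hK fun a ha b hb => ?_
    obtain ⟨z, hz, rfl⟩ := mem_image.1 ha
    obtain ⟨z', hz', rfl⟩ := mem_image.1 hb
    rw [mem_filter] at hz hz'
    exact h z hz.1 z' hz'.1 (by rw [hz.2, hz'.2])
  have h3 := sum_le_card_nsmul _ _ _ h2
  rw [h1, Nat.cast_sum, sum_mul]
  refine h3.trans (le_of_eq ?_)
  rw [nsmul_eq_mul, Int.card_Icc, Int.toNat_of_nonneg (by omega)]
  ring

lemma strip_key {a t ρ B u v : ℤ} (hρ : 0 < ρ) (h : ρ ≤ 2 * |a|) (hu : |u| ≤ B) (hv : |v| ≤ B)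
    (e : |u - v| = |a * t|) : t * ρ ≤ 4 * B := by
  have h1 := abs_sub u v
  have h2 := le_abs_self t
  have h3 := abs_nonneg t
  rw [abs_mul] at e
  nlinarith

theorem p_STRIP :
    S_STRIP := by
  intro c y ρ R B hρ hy hR hB
  rcases max_choice |y.1| |y.2| with e | e
  · rw [nm, e] at hy
    refine strip_gen _ Prod.fst Prod.snd c.1 R ρ (4 * B) hρ (by omega) hR
      (fun z z' => Prod.ext) (fun z hz => ((nm_le _ _).1 ((mem_strip _ _ _ _ _).1 hz).1).1)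
      fun z hz z' hz' h => ?_
    refine strip_key hρ hy ((mem_strip _ _ _ _ _).1 hz).2 ((mem_strip _ _ _ _ _).1 hz').2 ?_
    congr 1
    simp only [dt, Prod.fst_sub, Prod.snd_sub, h]
    ring
  · rw [nm, e] at hy
    refine strip_gen _ Prod.snd Prod.fst c.2 R ρ (4 * B) hρ (by omega) hR
      (fun z z' h1 h2 => Prod.ext h2 h1)
      (fun z hz => ((nm_le _ _).1 ((mem_strip _ _ _ _ _).1 hz).1).2)
      fun z hz z' hz' h => ?_
    refine strip_key hρ hy ((mem_strip _ _ _ _ _).1 hz').2 ((mem_strip _ _ _ _ _).1 hz).2 ?_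
    congr 1
    simp only [dt, Prod.fst_sub, Prod.snd_sub, h]
    ring

end Pool.Agent.P.MP_d1c5d3_co.CM
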