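import Pool.Agent.P.MP_d1c5d3_co.CM.Iface

/-! Step SUPP. -/

set_option autoImplicit false

namespace Pool.Agent.P.MP_d1c5d3_co.CM

open Finset

/-- the corners -/
def supp_T (a b : ℕ → Pt) (m n : ℕ) : Finset Pt :=
  (range m ×ˢ range n).image fun g =>
    cor (a g.1 + b g.2) (a (g.1 + 1) - a g.1) (b (g.2 + 1) - b g.2)

theorem supp_congr (a b : ℕ → Pt) (m n : ℕ) {φ ψ : Pt → ℤ}
    (h : ∀ z ∈ supp_T a b m n, φ z = ψ z) : WW a b m n φ = WW a b m n ψ :=
  sum_congr rfl fun i hi => sum_congr rfl fun j hj => by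
    rw [h _ (mem_image.2 ⟨(i, j), mem_product.2 ⟨hi, hj⟩, rfl⟩)]

theorem supp_sum (a b : ℕ → Pt) (m n : ℕ) {κ : Type} (S : Finset κ) (ψ : κ → Pt → ℤ)
    (c : κ → ℤ) : WW a b m n (fun z => ∑ ξ ∈ S, ψ ξ z * c ξ) = ∑ ξ ∈ S, WW a b m n (ψ ξ) * c ξ := by
  simp only [WW, mul_sum, sum_mul]
  rw [sum_comm (s := S)]
  refine sum_congr rfl fun i _ => ?_
  rw [sum_comm (s := S)]
  exact sum_congr rfl fun j _ => sum_congr rfl fun ξ _ => by ring

theorem supp_cor (P e f : Pt) (he : |e.1| + |e.2| ≤ 1) (hf : |f.1| + |f.2| ≤ 1)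
    (h : dt e f ≠ 0) :
    cor P e f = P ∨ cor P e f = P + e ∨ cor P e f = P + f ∨ cor P e f = P + e + f := by
  obtain ⟨e1, e2⟩ := e
  obtain ⟨f1, f2⟩ := f
  simp only [cor, dt, Prod.ext_iff, Prod.fst_add, Prod.snd_add] at *
  have a1 := abs_nonneg e1
  have a2 := abs_nonneg e2
  have a3 := abs_nonneg f1
  have a4 := abs_nonneg f2
  have b1 := abs_le.1 (show |e1| ≤ 1 by omega)
  have b2 := abs_le.1 (show |e2| ≤ 1 by omega)
  have b3 := abs_le.1 (show |f1| ≤ 1 by omega)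
  have b4 := abs_le.1 (show |f2| ≤ 1 by omega)
  obtain ⟨c1, c2⟩ := b1
  obtain ⟨c3, c4⟩ := b2
  obtain ⟨c5, c6⟩ := b3
  obtain ⟨c7, c8⟩ := b4
  interval_cases e1 <;> interval_cases e2 <;> interval_cases f1 <;> interval_cases f2 <;>
    simp_all

theorem p_SUPP :
    S_SUPP := by
  classical
  intro a b m n ha hb
  refine ⟨fun x hx => ?_, ?_, fun φ h => ?_, fun κ f h => ?_⟩
  · unfold wn WW at hx
    obtain ⟨i, hi, h1⟩ := exists_ne_zero_of_sum_ne_zero hx
    obtain ⟨j, hj, h2⟩ := exists_ne_zero_of_sum_ne_zero h1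
    rw [mem_range] at hi hj
    have h3 := left_ne_zero_of_mul h2
    have h4 : cor (a i + b j) (a (i + 1) - a i) (b (j + 1) - b j) = x := by
      by_contra e
      exact right_ne_zero_of_mul h2 (if_neg e)
    rcases supp_cor (a i + b j) _ _ (ha i) (hb j) h3 with e | e | e | e
    · exact ⟨i, by omega, j, by omega, by rw [← h4, e]⟩
    · exact ⟨i + 1, by omega, j, by omega, by rw [← h4, e]; abel⟩
    · exact ⟨i, by omega, j + 1, by omega, by rw [← h4, e]; abel⟩
    · exact ⟨i + 1, by omega, j + 1, by omega, by rw [← h4, e]; abel⟩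
  · have h1 : ∀ (y : Pt), ∑ j ∈ range n, dt y (b (j + 1) - b j) = dt y (b n - b 0) := fun y => by
      simp only [dt_sub]
      exact sum_range_sub (fun j => dt y (b j)) n
    simp only [WW, mul_one, h1]
    simp only [dt_comm _ (b n - b 0), sum_neg_distrib, neg_inj]
    simp only [dt_sub (b n - b 0)]
    exact sum_range_sub (fun i => dt (b n - b 0) (a i)) m
  · rw [supp_congr a b m n (ψ := fun z => ∑ x ∈ supp_T a b m n, (if z = x then 1 else 0) * φ x)
      fun z hz => by simp [hz], supp_sum]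
    refine sum_eq_zero fun x _ => ?_
    by_cases e : wn a b m n x = 0
    · exact mul_eq_zero_of_left e _
    · exact mul_eq_zero_of_right _ (h x e)
  · rw [supp_congr a b m n
      (ψ := fun z => ∑ ξ ∈ (supp_T a b m n).image f, (if f z = ξ then 1 else 0) * 1)
      fun z hz => by simp [mem_image_of_mem f hz], supp_sum]
    refine sum_eq_zero fun ξ _ => mul_eq_zero_of_left (h ξ _ ?_ ?_) _
    · exact fun z e => if_pos e
    · exact fun z e => if_neg e

end Pool.Agent.P.MP_d1c5d3_co.CM
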