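import Pool.Agent.P.MP_d1c5d3_co.CM.Iface

/-! Step THIN. -/

set_option autoImplicit false

namespace Pool.Agent.P.MP_d1c5d3_co.CM

open Finset

theorem p_THIN (hDET : S_DET) (hSTRIP : S_STRIP) :
    S_THIN := by
  classical
  intro a b L ρ T ba bb G hρ hT hL hd hA hB hinj hG
  obtain ⟨r, hr⟩ := hd
  have hr0 : 0 < r := by
    by_contra h
    have : T * r ≤ 0 := mul_nonpos_of_nonneg_of_nonpos hT.le (not_lt.1 h)
    omega
  have hρL : ρ ≤ L := by nlinarith
  have hD : ρ ≤ ρ * r := by nlinarith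
  set SA := ((range (L + 1)).image ba).filter (fun B => nm (a B.2 - a B.1) = ρ) with hSA
  set SB := (range (L + 1)).image bb with hSB
  have hsub : G.image (pt a b) ⊆ (SA ×ˢ SB).biUnion fun p =>
      strip (a p.1.1 + b p.2.1) (a p.1.2 - a p.1.1) (2 * ρ) (3 * (ρ * r)) := by
    intro z hz
    obtain ⟨g, hg, rfl⟩ := mem_image.1 hz
    obtain ⟨g1, g2, g3, g4, g5⟩ := hG g hg
    obtain ⟨a1, a2, -, a4⟩ := hA.1 g.1 g1
    obtain ⟨b1, b2, -, b4⟩ := hB.1 g.2 g2
    refine mem_biUnion.2 ⟨(ba g.1, bb g.2), mem_product.2 ⟨mem_filter.2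
      ⟨mem_image_of_mem _ (mem_range.2 (by omega)), g3.1⟩,
      mem_image_of_mem _ (mem_range.2 (by omega))⟩, ?_⟩
    have hx := a4 g.1 a1 a2
    have hy := b4 g.2 b1 b2
    have e : pt a b g - (a (ba g.1).1 + b (bb g.2).1) =
        (a g.1 - a (ba g.1).1) + (b g.2 - b (bb g.2).1) := by
      unfold pt; abel
    have hDD : (DD a b (ba g.1) (bb g.2) : ℤ) < ρ * r := by
      refine lt_of_mul_lt_mul_left ?_ hT.le
      calc T * (DD a b (ba g.1) (bb g.2) : ℤ) < ρ ^ 2 := g5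
        _ = T * (ρ * r) := by rw [sq]; nth_rewrite 1 [hr]; ring
    have d1 := DD_left a b (ba g.1) (bb g.2) g.2 b1 b2
    have d2 := DD_left a b (ba g.1) (bb g.2) (bb g.2).2 (b1.trans b2) le_rfl
    have d3 := DD_right a b (ba g.1) (bb g.2) g.1 a1 a2
    have d4 := hDET.2.1 (b (bb g.2).2 - b (bb g.2).1) (a g.1 - a (ba g.1).1)
      (a (ba g.1).2 - a (ba g.1).1) ρ hρ g4.1 hx g3.1.le
    rw [abs_dt_comm] at d3
    rw [mem_strip]
    dsimp only
    rw [e, dt_add]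
    refine ⟨(nm_add _ _).trans (by omega), (abs_add_le _ _).trans (by omega)⟩
  have hstrip : ∀ p ∈ SA ×ˢ SB,
      ((strip (a p.1.1 + b p.2.1) (a p.1.2 - a p.1.1) (2 * ρ) (3 * (ρ * r))).card : ℤ) ≤
        65 * (ρ * r) := by
    intro p hp
    have h1 : nm (a p.1.2 - a p.1.1) = ρ := (mem_filter.1 (mem_product.1 hp).1).2
    have h2 := hSTRIP (a p.1.1 + b p.2.1) (a p.1.2 - a p.1.1) ρ (2 * ρ) (3 * (ρ * r)) hρ
      (by omega) (by omega) (by omega)
    refine le_of_mul_le_mul_right (h2.trans ?_) hρ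
    calc (2 * (2 * ρ) + 1) * (4 * (3 * (ρ * r)) + ρ) ≤ (5 * ρ) * (13 * (ρ * r)) :=
          mul_le_mul (by omega) (by omega) (by omega) (by omega)
      _ = 65 * (ρ * r) * ρ := by ring
  have h1 : (G.card : ℤ) ≤ (SA.card : ℤ) * SB.card * (65 * (ρ * r)) := by
    rw [← card_image_of_injOn hinj]
    have k1 := (card_le_card hsub).trans card_biUnion_le
    have k2 : ((G.image (pt a b)).card : ℤ) ≤ ∑ p ∈ SA ×ˢ SB,
        ((strip (a p.1.1 + b p.2.1) (a p.1.2 - a p.1.1) (2 * ρ) (3 * (ρ * r))).card : ℤ) := by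
      exact_mod_cast k1
    refine k2.trans ((sum_le_card_nsmul _ _ _ hstrip).trans ?_)
    rw [card_product, nsmul_eq_mul, Nat.cast_mul]
  have hA2 : (SA.card : ℤ) * ρ ≤ 2 * L := by
    have k1 : (SA.card : ℤ) ≤ ((range (L + 1)).image ba).card := by
      exact_mod_cast card_le_card (filter_subset _ _)
    have k2 := hA.2.1
    have k3 := mul_le_mul_of_nonneg_right k1 hρ.le
    omega
  have hB2 : (SB.card : ℤ) * ρ ≤ 2 * L := by
    have k2 : (SB.card : ℤ) * ρ ≤ L + ρ := hB.2.1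
    omega
  calc (G.card : ℤ) * T ≤ (SA.card : ℤ) * SB.card * (65 * (ρ * r)) * T :=
        mul_le_mul_of_nonneg_right h1 hT.le
    _ = 65 * (((SA.card : ℤ) * ρ) * ((SB.card : ℤ) * (T * r))) := by ring
    _ = 65 * (((SA.card : ℤ) * ρ) * ((SB.card : ℤ) * ρ)) := by rw [← hr]
    _ ≤ 65 * ((2 * L) * (2 * L)) := by
        refine mul_le_mul_of_nonneg_left ?_ (by norm_num)
        exact mul_le_mul hA2 hB2 (by positivity) (by positivity)
    _ = 260 * L ^ 2 := by ring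

end Pool.Agent.P.MP_d1c5d3_co.CM
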