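import Pool.Agent.P.MP_d1c5d3_co.CM.Iface

/-! Step TOP. -/

set_option autoImplicit false

namespace Pool.Agent.P.MP_d1c5d3_co.CM

open Finset

lemma top_cover (a b : ℕ → Pt) (X Y : Finset (ℕ × ℕ)) (S : Finset Pt) (r : ℤ) (hr : 0 ≤ r)
    (h : ∀ z ∈ S, ∃ B ∈ X, ∃ C ∈ Y, nm (z - (a B.1 + b C.1)) ≤ r) :
    (S.card : ℤ) ≤ X.card * Y.card * (2 * r + 1) ^ 2 := by
  have hs : S ⊆ (X ×ˢ Y).biUnion fun p => ball (a p.1.1 + b p.2.1) r := by
    intro z hz
    obtain ⟨B, hB, C, hC, e⟩ := h z hz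
    exact mem_biUnion.2 ⟨(B, C), mem_product.2 ⟨hB, hC⟩, (mem_ball _ _ _).2 e⟩
  have h1 : (S.card : ℤ) ≤ ∑ p ∈ X ×ˢ Y, ((ball (a p.1.1 + b p.2.1) r).card : ℤ) := by
    exact_mod_cast (card_le_card hs).trans card_biUnion_le
  simp only [card_ball _ _ hr, sum_const, card_product, nsmul_eq_mul, Nat.cast_mul] at h1
  exact h1

lemma top_near (a b : ℕ → Pt) (L : ℕ) (ρ T : ℤ) (ba bb : ℕ → ℕ × ℕ)
    (ha : Bl a L ρ T ba) (hb : Bl b L ρ T bb) (g : ℕ × ℕ) (h1 : g.1 ≤ L) (h2 : g.2 ≤ L) :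
    nm (pt a b g - (a (ba g.1).1 + b (bb g.2).1)) ≤ 2 * ρ := by
  obtain ⟨p1, p2, -, p4⟩ := ha.1 g.1 h1
  obtain ⟨q1, q2, -, q4⟩ := hb.1 g.2 h2
  have e1 := p4 _ p1 p2
  have e2 := q4 _ q1 q2
  have e3 := nm_add (a g.1 - a (ba g.1).1) (b g.2 - b (bb g.2).1)
  have e4 : pt a b g - (a (ba g.1).1 + b (bb g.2).1) =
      a g.1 - a (ba g.1).1 + (b g.2 - b (bb g.2).1) := by
    unfold pt
    abel
  rw [e4]
  omega

lemma top_num (x y s ρ T L : ℤ) (hx : 0 ≤ x) (hy : 0 ≤ y) (hρ : 0 < ρ) (hT : 0 < T)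
    (h1 : x * (T * ρ) ≤ 2 * L) (h2 : y * ρ ≤ 2 * L) (hs : s ≤ x * y * (2 * (2 * ρ) + 1) ^ 2) :
    s * T ≤ 100 * L ^ 2 := by
  have h3 : (2 * (2 * ρ) + 1) ^ 2 ≤ 25 * ρ ^ 2 := by nlinarith
  have h4 : s ≤ x * y * (25 * ρ ^ 2) := hs.trans (mul_le_mul_of_nonneg_left h3 (by positivity))
  have h5 : x * (T * ρ) * (y * ρ) ≤ 2 * L * (2 * L) :=
    mul_le_mul h1 h2 (by positivity) (le_trans (by positivity) h1)
  have h6 : s * T ≤ x * y * (25 * ρ ^ 2) * T := mul_le_mul_of_nonneg_right h4 hT.le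
  nlinarith

open Classical in
theorem p_TOP :
    S_TOP := by
  intro a b L ρ T ba bb G hρ hT hL ha hb hG
  have hρL : ρ ≤ L := by nlinarith
  have hX : (((range (L + 1)).image ba).card : ℤ) * ρ ≤ 2 * L := by
    have := ha.2.1
    omega
  have hY : (((range (L + 1)).image bb).card : ℤ) * ρ ≤ 2 * L := by
    have := hb.2.1
    omega
  refine ⟨?_, ?_⟩
  · have h := top_cover a b ((range (L + 1)).image ba) ((range (L + 1)).image bb)
      (nb (G.image (pt a b)) (4 * ρ)) (6 * ρ) (by omega) (by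
        intro z hz
        obtain ⟨c, hc, e⟩ := (mem_nb _ _ _).1 hz
        obtain ⟨g, hg, rfl⟩ := mem_image.1 hc
        obtain ⟨g1, g2⟩ := hG g hg
        refine ⟨ba g.1, mem_image_of_mem _ (mem_range.2 (by omega)), bb g.2,
          mem_image_of_mem _ (mem_range.2 (by omega)), ?_⟩
        have e1 := top_near a b L ρ T ba bb ha hb g g1 g2
        have e2 := nm_tri z (pt a b g) (a (ba g.1).1 + b (bb g.2).1)
        omega)
    have h3 : (2 * (6 * ρ) + 1) ^ 2 ≤ 169 * ρ ^ 2 := by nlinarith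
    have h4 := h.trans (mul_le_mul_of_nonneg_left h3 (by positivity))
    have h5 := mul_le_mul hX hY (by positivity) (by positivity)
    nlinarith
  · intro hi hbad
    rw [← card_image_of_injOn hi]
    rcases hbad with hbad | hbad
    · have h := top_cover a b (((range (L + 1)).image ba).filter fun B => ¬ Gd a ρ T B)
        ((range (L + 1)).image bb) (G.image (pt a b)) (2 * ρ) (by omega) (by
          intro z hz
          obtain ⟨g, hg, rfl⟩ := mem_image.1 hz
          obtain ⟨g1, g2⟩ := hG g hg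
          exact ⟨ba g.1, mem_filter.2 ⟨mem_image_of_mem _ (mem_range.2 (by omega)), hbad g hg⟩,
            bb g.2, mem_image_of_mem _ (mem_range.2 (by omega)),
            top_near a b L ρ T ba bb ha hb g g1 g2⟩)
      have h2 := ha.2.2
      exact top_num _ _ _ ρ T L (by positivity) (by positivity) hρ hT (by omega) hY h
    · have h := top_cover a b ((range (L + 1)).image ba)
        (((range (L + 1)).image bb).filter fun B => ¬ Gd b ρ T B)
        (G.image (pt a b)) (2 * ρ) (by omega) (by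
          intro z hz
          obtain ⟨g, hg, rfl⟩ := mem_image.1 hz
          obtain ⟨g1, g2⟩ := hG g hg
          exact ⟨ba g.1, mem_image_of_mem _ (mem_range.2 (by omega)),
            bb g.2, mem_filter.2 ⟨mem_image_of_mem _ (mem_range.2 (by omega)), hbad g hg⟩,
            top_near a b L ρ T ba bb ha hb g g1 g2⟩)
      have h2 := hb.2.2
      rw [mul_comm ((((range (L + 1)).image ba).card : ℕ) : ℤ)] at h
      exact top_num _ _ _ ρ T L (by positivity) (by positivity) hρ hT (by omega) hX h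

end Pool.Agent.P.MP_d1c5d3_co.CM
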