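import Pool.Agent.P.MP_d1c5d3_co.CM.Iface

/-! Step TOUR. -/

set_option autoImplicit false

namespace Pool.Agent.P.MP_d1c5d3_co.CM

open Finset

theorem tour_adj {A B : Finset Pt} (h : Conn A) {x y : Pt} (hx : x ∈ A) (hy : y ∈ A) (h1 : x ∈ B)
    (h2 : y ∉ B) : ∃ p ∈ B, ∃ p' ∈ A, p' ∉ B ∧ |p.1 - p'.1| + |p.2 - p'.2| = 1 := by
  obtain ⟨w⟩ := h.preconnected ⟨x, hx⟩ ⟨y, hy⟩
  obtain ⟨d, _, d1, d2⟩ := w.exists_boundary_dart {z | z.1 ∈ B} h1 h2
  refine ⟨_, d1, _, d.snd.2, d2, ?_⟩
  have e := (SimpleGraph.induce_adj.1 d.adj).2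
  rcases e with e | e
  · exact e
  · rw [abs_sub_comm, abs_sub_comm d.fst.1.2]; exact e

theorem p_TOUR :
    S_TOUR := by
  intro A hA
  have key : ∀ m, m < A.card → ∃ B ⊆ A, B.card = m + 1 ∧ ∃ a : ℕ → Pt, Wk a ∧ (∀ i, a i ∈ A) ∧
      ∀ p ∈ B, ∃ i ≤ 2 * m, a i = p := by
    intro m
    induction m with
    | zero =>
      intro h
      obtain ⟨p, hp⟩ := card_pos.1 h
      exact ⟨{p}, by simpa using hp, by simp, fun _ => p, fun _ => by simp, fun _ => hp,
        fun q hq => ⟨0, le_rfl, (mem_singleton.1 hq).symm⟩⟩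
    | succ m ih =>
      intro h
      obtain ⟨B, b1, b2, a, a1, a2, a3⟩ := ih (by omega)
      obtain ⟨x, hx⟩ := card_pos.1 (show 0 < B.card by omega)
      obtain ⟨y, hy, hy'⟩ := exists_mem_notMem_of_card_lt_card (show B.card < A.card by omega)
      obtain ⟨p, p1, r, r1, r2, e⟩ := tour_adj hA (b1 hx) hy hx hy'
      obtain ⟨j, j1, rfl⟩ := a3 p p1
      refine ⟨insert r B, insert_subset r1 b1, by rw [card_insert_of_notMem r2, b2],
        fun i => if i ≤ j then a i else if i = j + 1 then r else a (i - 2), fun i => ?_,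
        fun i => ?_, fun z hz => ?_⟩
      · dsimp only
        rcases lt_trichotomy i j with c | rfl | c
        · rw [if_pos (by omega), if_pos c.le]; exact a1 i
        · rw [if_neg (by omega), if_pos rfl, if_pos le_rfl, abs_sub_comm r.1, abs_sub_comm r.2]
          exact e.le
        · rw [if_neg (by omega), if_neg (by omega), if_neg (show ¬ i ≤ j by omega)]
          split_ifs with c2
          · rw [c2]; exact e.le
          · rw [show i + 1 - 2 = i - 2 + 1 by omega]; exact a1 _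
      · dsimp only
        split_ifs
        exacts [a2 _, r1, a2 _]
      · rcases mem_insert.1 hz with rfl | hz
        · exact ⟨j + 1, by omega, by simp⟩
        · obtain ⟨i, i1, rfl⟩ := a3 z hz
          by_cases c : i ≤ j
          · exact ⟨i, by omega, if_pos c⟩
          · exact ⟨i + 2, by omega, by
              dsimp only
              rw [if_neg (by omega), if_neg (by omega), Nat.add_sub_cancel]⟩
  obtain ⟨⟨x, hx⟩⟩ := hA.nonempty
  have h0 : 0 < A.card := card_pos.2 ⟨x, hx⟩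
  obtain ⟨B, b1, b2, a, a1, a2, a3⟩ := key (A.card - 1) (by omega)
  refine ⟨a, a1, a2, fun p hp => ?_⟩
  obtain ⟨i, i1, i2⟩ := a3 p (eq_of_subset_of_card_le b1 (by omega) ▸ hp)
  exact ⟨i, by omega, i2⟩

end Pool.Agent.P.MP_d1c5d3_co.CM
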