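import Pool.Agent.P.MP_d1c5d3_co.CM.Iface

/-! Step UP. -/

set_option autoImplicit false

namespace Pool.Agent.P.MP_d1c5d3_co.CM

open Finset

lemma up_card_nb (A : Finset Pt) : (nb A 1).card ≤ 9 * A.card := by
  have h : ∀ c ∈ A, (ball c 1).card ≤ 9 := by
    intro c _
    have := card_ball c 1 (by norm_num)
    omega
  have := card_biUnion_le_card_mul A (fun c => ball c 1) 9 h
  rw [nb]
  omega

open Classical in
lemma up_exists (a b : ℕ → Pt) (L : ℕ) : ∃ G : Finset (ℕ × ℕ), Set.InjOn (pt a b) G ∧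
    (∀ g ∈ G, g.1 ≤ L ∧ g.2 ≤ L ∧ Out a b L g) ∧
    ∀ g : ℕ × ℕ, g.1 ≤ L → g.2 ≤ L → Out a b L g → pt a b g ∈ G.image (pt a b) := by
  set F : Finset (ℕ × ℕ) := (range (L + 1) ×ˢ range (L + 1)).filter (Out a b L) with hF
  obtain ⟨G, hG1, hG2, hG3⟩ := Finset.exists_subset_injOn_image_eq_of_surjOn (f := pt a b)
    (F : Set (ℕ × ℕ)) (F.image (pt a b)) (by
      intro x hx
      obtain ⟨g, hg, rfl⟩ := mem_image.1 (mem_coe.1 hx)
      exact ⟨g, mem_coe.2 hg, rfl⟩)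
  refine ⟨G, hG2, ?_, ?_⟩
  · intro g hg
    have := hG1 (mem_coe.2 hg)
    simp only [hF, coe_filter, mem_product, mem_range, Set.mem_ofPred_eq] at this
    exact ⟨by omega, by omega, this.2⟩
  · intro g h1 h2 h3
    rw [hG3]
    refine mem_image_of_mem _ ?_
    simp only [hF, mem_filter, mem_product, mem_range]
    exact ⟨⟨by omega, by omega⟩, h3⟩

theorem p_UP (hWALK : S_WALK) (hTOUR : S_TOUR) (hNUM : S_NUM) :
    S_UP := by
  classical
  obtain ⟨C, c, hC, hc, hN⟩ := hNUM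
  refine ⟨C, c, hC, hc, fun n hn P Q hP hQ hPn hQn => ?_⟩
  obtain ⟨k, hk1, hk2⟩ := hN n hn
  obtain ⟨a, ha1, ha2, ha3⟩ := hTOUR P hP
  obtain ⟨b0, hb1, hb2, hb3⟩ := hTOUR Q hQ
  set b : ℕ → Pt := fun j => -b0 j with hb
  have hbw : Wk b := by
    intro i
    have := hb1 i
    simp only [hb, Prod.fst_neg, Prod.snd_neg]
    rw [show -(b0 (i + 1)).1 - -(b0 i).1 = -((b0 (i + 1)).1 - (b0 i).1) by ring,
      show -(b0 (i + 1)).2 - -(b0 i).2 = -((b0 (i + 1)).2 - (b0 i).2) by ring, abs_neg, abs_neg]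
    exact this
  obtain ⟨G, hG1, hG2, hG3⟩ := up_exists a b (2 * n)
  have hsub : comps P Q ⊆ (nb (G.image (pt a b)) 1 : Set Pt) := by
    rintro v ⟨hv1, p, hp, q, hq, hv2⟩
    obtain ⟨i, hi, rfl⟩ := ha3 p hp
    obtain ⟨j, hj, rfl⟩ := hb3 q hq
    have hnm : nm (v - pt a b (i, j)) ≤ 1 := by
      rw [nm_le]
      simp only [pt, hb, Prod.fst_sub, Prod.snd_sub, Prod.fst_add, Prod.snd_add, Prod.fst_neg,
        Prod.snd_neg] at hv2 ⊢
      have h1 := abs_nonneg ((a i).1 - ((b0 j).1 + v.1))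
      have h2 := abs_nonneg ((a i).2 - ((b0 j).2 + v.2))
      rw [show v.1 - ((a i).1 + -(b0 j).1) = -((a i).1 - ((b0 j).1 + v.1)) by ring,
        show v.2 - ((a i).2 + -(b0 j).2) = -((a i).2 - ((b0 j).2 + v.2)) by ring, abs_neg, abs_neg]
      constructor <;> omega
    have hout : Out a b (2 * n) (i, j) := by
      refine ⟨v, hnm, fun i' _ j' _ h => hv1 _ (ha2 i') _ (hb2 j') ?_⟩
      rw [h]
      simp [hb]
    exact mem_coe.2 ((mem_nb _ _ _).2 ⟨_, hG3 (i, j) (by omega) (by omega) hout, hnm⟩)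
  refine ⟨(Finset.finite_toSet _).subset hsub, ?_⟩
  have h1 : (comps P Q).ncard ≤ 9 * G.card := by
    have h2 := Set.ncard_le_ncard hsub (Finset.finite_toSet _)
    rw [Set.ncard_coe_finset] at h2
    have h3 := up_card_nb (G.image (pt a b))
    have h4 : (G.image (pt a b)).card ≤ G.card := card_image_le
    omega
  have h5 := hWALK a b (2 * n) k G ha1 hbw hk1 hG1 hG2
  have h6 : ((comps P Q).ncard : ℝ) ≤ 9 * G.card := by exact_mod_cast h1
  push_cast at h5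
  have h7 : (0 : ℝ) ≤ (n : ℝ) ^ 2 := by positivity
  have h8 := mul_le_mul_of_nonneg_left hk2 h7
  nlinarith

end Pool.Agent.P.MP_d1c5d3_co.CM
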