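import Pool.Agent.P.MP_d1c5d3_co.CM.Iface

/-! Step VIT. -/

set_option autoImplicit false

namespace Pool.Agent.P.MP_d1c5d3_co.CM

open Finset

theorem vit_sub {c c' y w : Pt} {ρ D D' : ℤ} (h : w ∈ strip c y (4 * ρ) (22 * D))
    (h' : w ∈ strip c' y (4 * ρ) (22 * D')) (e : D ≤ 2 * D') :
    strip c y (4 * ρ) (22 * D) ⊆ strip c' y (12 * ρ) (110 * D') := by
  intro z hz
  rw [mem_strip] at h h' hz ⊢
  constructor
  · have h1 := nm_tri z c c'
    have h2 := nm_tri c w c'
    rw [nm_sub_comm c w] at h2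
    omega
  · have h1 : dt y (z - c') = dt y (z - c) - dt y (w - c) + dt y (w - c') := by
      simp only [dt_sub]; ring
    have h2 := abs_le.1 h.2
    have h3 := abs_le.1 h'.2
    have h4 := abs_le.1 hz.2
    rw [h1, abs_le]
    omega

theorem vit_card (hSTRIP : S_STRIP) (c y : Pt) {ρ D : ℤ} (h0 : 0 < ρ) (hy : ρ ≤ 2 * nm y)
    (hD : ρ ≤ D) : ((strip c y (12 * ρ) (110 * D)).card : ℤ) ≤ 11025 * D := by
  have h := hSTRIP c y ρ (12 * ρ) (110 * D) h0 hy (by omega) (by omega)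
  have h2 : (2 * (12 * ρ) + 1) * (4 * (110 * D) + ρ) ≤ (25 * ρ) * (441 * D) :=
    mul_le_mul (by omega) (by omega) (by omega) (by omega)
  refine le_of_mul_le_mul_right ?_ h0
  linarith

open Classical in
theorem p_VIT (hSTRIP : S_STRIP) :
    S_VIT := by
  intro G x D H y ρ h0 hy hG
  obtain ⟨u, hu, hd, hc⟩ := Vitali.exists_disjoint_subfamily_covering_enlargement
    (fun g => (↑(strip (x g) y (4 * ρ) (22 * D g)) : Set Pt)) (↑G : Set (ℕ × ℕ))
    (fun g => (D g : ℝ)) 2 (by norm_num)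
    (fun g hg => by exact_mod_cast h0.le.trans (hG g hg).1) (∑ g ∈ G, (D g : ℝ))
    (fun g hg => single_le_sum (f := fun g => (D g : ℝ))
      (fun g hg => by exact_mod_cast h0.le.trans (hG g hg).1) hg)
    (fun g hg => ⟨x g, by
      have := (hG g hg).1
      rw [mem_coe, mem_strip, sub_self]
      simp only [nm, dt, Prod.fst_zero, Prod.snd_zero, abs_zero, max_self, mul_zero, sub_self]
      omega⟩)
  have h1 : (G.biUnion fun g => strip (x g) y (4 * ρ) (22 * D g)) ⊆
      (G.filter (· ∈ u)).biUnion fun b => strip (x b) y (12 * ρ) (110 * D b) := by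
    intro z hz
    obtain ⟨g, hg, hz⟩ := mem_biUnion.1 hz
    obtain ⟨b, hb, ⟨w, w1, w2⟩, e⟩ := hc g hg
    exact mem_biUnion.2 ⟨b, mem_filter.2 ⟨hu hb, hb⟩, vit_sub w1 w2 (by exact_mod_cast e) hz⟩
  have h2 : ((G.filter (· ∈ u)).biUnion H).card = ∑ b ∈ G.filter (· ∈ u), (H b).card := by
    refine card_biUnion fun a ha b hb ne => ?_
    have ha' := mem_filter.1 ha
    have hb' := mem_filter.1 hb
    exact (disjoint_coe.1 (hd ha'.2 hb'.2 ne)).mono (hG a ha'.1).2.2 (hG b hb'.1).2.2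
  refine (card_le_card h1).trans (card_biUnion_le.trans (le_trans ?_ (Nat.mul_le_mul_left _
    (card_le_card (biUnion_subset_biUnion_of_subset_left H (filter_subset (· ∈ u) G))))))
  rw [h2, mul_sum]
  refine sum_le_sum fun b hb => ?_
  have hb' := hG b (mem_filter.1 hb).1
  have := vit_card hSTRIP (x b) y h0 hy hb'.1
  omega

end Pool.Agent.P.MP_d1c5d3_co.CM
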