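import Pool.Agent.P.MP_d1c5d3_co.CM.Iface

/-! Step WALK. -/

set_option autoImplicit false

namespace Pool.Agent.P.MP_d1c5d3_co.CM

open Finset

lemma walk_base (G0 : Finset (ℕ × ℕ)) (x : ℕ × ℕ → Pt) (h : Set.InjOn x G0) : Pot G0 x 1 1 := by
  intro X Y G hG hXY
  have h1 : (G.card : ℝ) ≤ (X.card : ℝ) * Y.card := by
    have := card_le_card hXY
    rw [card_product] at this
    exact_mod_cast this
  have h2 : (G.card : ℝ) ≤ (nb (G.image x) (4 * 1)).card := by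
    have e : (G.image x).card = G.card := card_image_of_injOn (h.mono (coe_subset.2 hG))
    have : G.image x ⊆ nb (G.image x) (4 * 1) := fun z hz =>
      (mem_nb _ _ _).2 ⟨z, hz, by simp [nm]⟩
    rw [← e]
    exact_mod_cast card_le_card this
  have h3 : (G.card : ℝ) ^ 2 ≤ ((X.card : ℝ) * Y.card) ^ 2 := pow_le_pow_left₀ (by positivity) h1 2
  calc (G.card : ℝ) ^ 3 = (G.card : ℝ) ^ 2 * G.card := by ring
    _ ≤ ((X.card : ℝ) * Y.card) ^ 2 * (nb (G.image x) (4 * 1)).card := by gcongr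
    _ = _ := by ring

theorem p_WALK (hSTEP : S_STEP) (hBLK : S_BLK) (hTOP : S_TOP) (hTHIN : S_THIN) (hLVL : S_LVL) :
    S_WALK := by
  classical
  intro a b L k G ha hb hL hinj hG
  set T : ℤ := 2 ^ k with hT
  set K : ℤ := 2 ^ (12 + 2 * k) with hK
  have hT0 : 0 < T := by positivity
  have hK1 : 1 ≤ K := one_le_pow₀ (by norm_num)
  have hKT : K = 4096 * T ^ 2 := by rw [hK, hT, pow_add, ← pow_mul, mul_comm k 2]; norm_num
  have hρ0 : ∀ j : ℕ, 0 < K ^ j := fun j => by positivity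
  have hTL : ∀ j ≤ k, T * K ^ j ≤ L := by
    intro j hj
    have h1 : K ^ j ≤ K ^ k := pow_le_pow_right₀ hK1 hj
    have h2 : T * K ^ k = ((2 ^ (k + k * (12 + 2 * k)) : ℕ) : ℤ) := by
      push_cast
      rw [hT, hK, ← pow_mul, ← pow_add, mul_comm (12 + 2 * k) k]
    have h3 : ((2 ^ (k + k * (12 + 2 * k)) : ℕ) : ℤ) ≤ L := by exact_mod_cast hL
    nlinarith
  choose ba hba using fun j : ℕ => hBLK a L (K ^ j) T ha (hρ0 j) hT0
  choose bb hbb using fun j : ℕ => hBLK b L (K ^ j) T hb (hρ0 j) hT0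
  set Fat : ℕ → ℕ × ℕ → Prop := fun j g => Gd a (K ^ j) T (ba j g.1) ∧ Gd b (K ^ j) T (bb j g.2) ∧
    (K ^ j) ^ 2 ≤ T * DD a b (ba j g.1) (bb j g.2) with hFat
  set G0 := G.filter fun g => ∀ j < k, Fat (j + 1) g with hG0
  have hsub : G0 ⊆ G := filter_subset _ _
  have hinj' : ∀ A : Finset (ℕ × ℕ), A ⊆ G → Set.InjOn (pt a b) A := fun A hA =>
    hinj.mono (coe_subset.2 hA)
  have hbad : ∀ j < k, ((G.filter fun g => ¬ Fat (j + 1) g).card : ℤ) * T ≤ 460 * L ^ 2 := by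
    intro j hj
    have hdv : T ∣ K ^ (j + 1) := by
      rw [pow_succ, hKT]
      exact Dvd.dvd.mul_left (Dvd.dvd.mul_left (dvd_pow_self T (by norm_num)) _) _
    set A1 := G.filter fun g => ¬ Gd a (K ^ (j + 1)) T (ba (j + 1) g.1) with hA1
    set A2 := G.filter fun g => ¬ Gd b (K ^ (j + 1)) T (bb (j + 1) g.2) with hA2
    set A3 := G.filter fun g => Gd a (K ^ (j + 1)) T (ba (j + 1) g.1) ∧
      Gd b (K ^ (j + 1)) T (bb (j + 1) g.2) ∧
      T * DD a b (ba (j + 1) g.1) (bb (j + 1) g.2) < (K ^ (j + 1)) ^ 2 with hA3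
    have b1 := (hTOP a b L _ T _ _ A1 (hρ0 (j + 1)) hT0 (hTL _ hj) (hba _) (hbb _)
      (fun g hg => ⟨(hG g (mem_filter.1 hg).1).1, (hG g (mem_filter.1 hg).1).2.1⟩)).2
      (hinj' _ (filter_subset _ _)) (Or.inl fun g hg => (mem_filter.1 hg).2)
    have b2 := (hTOP a b L _ T _ _ A2 (hρ0 (j + 1)) hT0 (hTL _ hj) (hba _) (hbb _)
      (fun g hg => ⟨(hG g (mem_filter.1 hg).1).1, (hG g (mem_filter.1 hg).1).2.1⟩)).2
      (hinj' _ (filter_subset _ _)) (Or.inr fun g hg => (mem_filter.1 hg).2)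
    have b3 := hTHIN a b L _ T _ _ A3 (hρ0 (j + 1)) hT0 (hTL _ hj) hdv (hba _) (hbb _)
      (hinj' _ (filter_subset _ _))
      (fun g hg => ⟨(hG g (mem_filter.1 hg).1).1, (hG g (mem_filter.1 hg).1).2.1,
        (mem_filter.1 hg).2⟩)
    have hs : (G.filter fun g => ¬ Fat (j + 1) g) ⊆ A1 ∪ A2 ∪ A3 := by
      intro g hg
      obtain ⟨hg, hn⟩ := mem_filter.1 hg
      simp only [mem_union, hA1, hA2, hA3, mem_filter, hg, true_and]
      by_contra hc
      push Not at hc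
      exact hn ⟨hc.1.1, hc.1.2, hc.2 hc.1.1 hc.1.2⟩
    have hc : (G.filter fun g => ¬ Fat (j + 1) g).card ≤ A1.card + A2.card + A3.card :=
      (card_le_card hs).trans ((card_union_le _ _).trans
        (Nat.add_le_add_right (card_union_le _ _) _))
    have hc' : ((G.filter fun g => ¬ Fat (j + 1) g).card : ℤ) ≤ A1.card + A2.card + A3.card := by
      exact_mod_cast hc
    nlinarith
  have hsplit : G.card ≤ G0.card + ∑ j ∈ range k, (G.filter fun g => ¬ Fat (j + 1) g).card := by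
    refine le_trans (card_le_card ?_) ((card_union_le G0 ((range k).biUnion fun j =>
      G.filter fun g => ¬ Fat (j + 1) g)).trans (Nat.add_le_add_left card_biUnion_le _))
    intro g hg
    by_cases h : ∀ j < k, Fat (j + 1) g
    · exact mem_union_left _ (mem_filter.2 ⟨hg, h⟩)
    · push Not at h
      obtain ⟨j, hj, h⟩ := h
      exact mem_union_right _ (mem_biUnion.2 ⟨j, mem_range.2 hj, mem_filter.2 ⟨hg, h⟩⟩)
  have hsum : (∑ j ∈ range k, ((G.filter fun g => ¬ Fat (j + 1) g).card : ℝ)) ≤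
      k * (460 * (L : ℝ) ^ 2 / 2 ^ k) := by
    refine (sum_le_card_nsmul _ _ (460 * (L : ℝ) ^ 2 / 2 ^ k) ?_).trans (by simp)
    intro j hj
    rw [le_div_iff₀ (by positivity)]
    have h : ((G.filter fun g => ¬ Fat (j + 1) g).card : ℤ) * 2 ^ k ≤ 460 * L ^ 2 :=
      hbad j (mem_range.1 hj)
    exact_mod_cast h
  have hpot : ∀ j ≤ k, Pot G0 (pt a b) (K ^ j) ((1 - 1 / 10 ^ 10) ^ j) := by
    intro j
    induction j with
    | zero => intro _; simpa using walk_base G0 _ (hinj' _ hsub)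
    | succ j ih =>
      intro hj
      have hl := hLVL a b L (K ^ j) (K ^ (j + 1)) T _ _ G0 ha hb (hρ0 j) hT0
        (by rw [pow_succ K j, ← hKT, mul_comm]) (hba (j + 1)) (hbb (j + 1)) (fun g hg => by
          obtain ⟨hg1, hg2⟩ := mem_filter.1 hg
          exact ⟨(hG g hg1).1, (hG g hg1).2.1, (hG g hg1).2.2, hg2 j (by omega)⟩)
      have := hSTEP G0 (pt a b) (K ^ j) (K ^ (j + 1)) _ (hρ0 j)
        (pow_le_pow_right₀ hK1 (Nat.le_succ j)) (by positivity) hl (ih (by omega))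
      rwa [← pow_succ] at this
  have hL1 : (1 : ℝ) ≤ L := by
    have : 1 ≤ L := le_trans Nat.one_le_two_pow hL
    exact_mod_cast this
  have h1 := hpot k le_rfl (range (L + 1)) (range (L + 1)) G0 Subset.rfl (fun g hg => by
    have := hG g (hsub hg)
    exact mem_product.2 ⟨mem_range.2 (by omega), mem_range.2 (by omega)⟩)
  have h2 := (hTOP a b L _ T _ _ G0 (hρ0 k) hT0 (hTL k le_rfl) (hba _) (hbb _)
    (fun g hg => ⟨(hG g (hsub hg)).1, (hG g (hsub hg)).2.1⟩)).1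
  have h2' : ((nb (G0.image (pt a b)) (4 * K ^ k)).card : ℝ) ≤ 676 * (L : ℝ) ^ 2 := by
    exact_mod_cast h2
  have h3 : ((1 : ℝ) - 1 / 10 ^ 10) ^ k ≤ ((1 - 1 / 10 ^ 11) ^ k) ^ 3 := by
    rw [← pow_mul, mul_comm k 3, pow_mul]
    exact pow_le_pow_left₀ (by norm_num) (by norm_num) k
  have h4 : (G0.card : ℝ) ^ 3 ≤ (23 * (L : ℝ) ^ 2 * (1 - 1 / 10 ^ 11) ^ k) ^ 3 := by
    have e1 : (((range (L + 1)).card : ℝ) * (range (L + 1)).card) ^ 2 ≤ (2 * L * (2 * L)) ^ 2 := by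
      rw [card_range]
      push_cast
      gcongr <;> linarith
    have e0 : (0 : ℝ) ≤ (L : ℝ) ^ 6 * ((1 - 1 / 10 ^ 11) ^ k) ^ 3 := by positivity
    calc (G0.card : ℝ) ^ 3 ≤ _ := h1
      _ ≤ (2 * L * (2 * L)) ^ 2 * (676 * (L : ℝ) ^ 2) * ((1 - 1 / 10 ^ 11) ^ k) ^ 3 := by gcongr
      _ ≤ _ := by nlinarith
  have h5 : (G0.card : ℝ) ≤ 23 * (L : ℝ) ^ 2 * (1 - 1 / 10 ^ 11) ^ k :=
    le_of_pow_le_pow_left₀ (by norm_num) (by positivity) h4
  have h6 : (G.card : ℝ) ≤ G0.card +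
      ∑ j ∈ range k, ((G.filter fun g => ¬ Fat (j + 1) g).card : ℝ) := by exact_mod_cast hsplit
  calc (G.card : ℝ) ≤ 23 * (L : ℝ) ^ 2 * (1 - 1 / 10 ^ 11) ^ k +
        k * (460 * (L : ℝ) ^ 2 / 2 ^ k) := by linarith
    _ = _ := by ring

end Pool.Agent.P.MP_d1c5d3_co.CM
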