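import Pool.Agent.P.MP_d1c5d3_co.CM.TDET
import Pool.Agent.P.MP_d1c5d3_co.CM.TSTRIP
import Pool.Agent.P.MP_d1c5d3_co.CM.TVIT
import Pool.Agent.P.MP_d1c5d3_co.CM.TSPLIT
import Pool.Agent.P.MP_d1c5d3_co.CM.TSTEP
import Pool.Agent.P.MP_d1c5d3_co.CM.TSHIFT
import Pool.Agent.P.MP_d1c5d3_co.CM.TSUPP
import Pool.Agent.P.MP_d1c5d3_co.CM.TIDX
import Pool.Agent.P.MP_d1c5d3_co.CM.TCOS
import Pool.Agent.P.MP_d1c5d3_co.CM.TNBH
import Pool.Agent.P.MP_d1c5d3_co.CM.TFILL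
import Pool.Agent.P.MP_d1c5d3_co.CM.TBLK
import Pool.Agent.P.MP_d1c5d3_co.CM.TTOP
import Pool.Agent.P.MP_d1c5d3_co.CM.TTHIN
import Pool.Agent.P.MP_d1c5d3_co.CM.TLVL
import Pool.Agent.P.MP_d1c5d3_co.CM.TWALK
import Pool.Agent.P.MP_d1c5d3_co.CM.TTOUR
import Pool.Agent.P.MP_d1c5d3_co.CM.TNUM
import Pool.Agent.P.MP_d1c5d3_co.CM.TUP
import Pool.Agent.P.MP_d1c5d3_co.CM.TCB
import Pool.Agent.P.MP_d1c5d3_co.CM.TCOMB
import Pool.Agent.P.MP_d1c5d3_co.CM.TLOW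
import Pool.Agent.P.MP_d1c5d3_co.CM.TDOWN

/-! The two-sided bound on the number of compositions of two polyominoes. -/

set_option autoImplicit false

namespace Pool.Agent.P.MP_d1c5d3_co.CM

theorem upper : S_UP :=
  p_UP (p_WALK (p_STEP p_DET (p_VIT p_STRIP) (p_SPLIT p_DET)) p_BLK p_TOP (p_THIN p_DET p_STRIP)
    (p_LVL p_DET (p_FILL p_SHIFT p_SUPP (p_COS p_SHIFT p_SUPP p_IDX) p_NBH))) p_TOUR p_NUM

theorem lower : S_DOWN := p_DOWN p_CB (p_LOW p_CB (p_COMB p_CB))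

theorem main : ∃ c C : ℝ, 0 < c ∧ 0 < C ∧ ∀ n : ℕ, 1 ≤ n →
    (∀ P Q : Finset Pt, Conn P → Conn Q → P.card ≤ n → Q.card ≤ n → (comps P Q).Finite ∧
      ((comps P Q).ncard : ℝ) ≤ C * (n : ℝ) ^ 2 * Real.exp (-c * √(Real.log n))) ∧
    ∃ P Q : Finset Pt, Conn P ∧ Conn Q ∧ P.card ≤ n ∧ Q.card ≤ n ∧
      c * (n : ℝ) ^ 2 * Real.exp (-C * √(Real.log n)) ≤ ((comps P Q).ncard : ℝ) := by
  obtain ⟨C1, c1, hC1, hc1, hu⟩ := upper
  obtain ⟨C2, c2, hC2, hc2, hl⟩ := lower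
  refine ⟨min c1 c2, max C1 C2, lt_min hc1 hc2, lt_max_of_lt_left hC1, fun n hn => ⟨?_, ?_⟩⟩
  · intro P Q hP hQ h1 h2
    obtain ⟨hf, hb⟩ := hu n hn P Q hP hQ h1 h2
    refine ⟨hf, hb.trans ?_⟩
    have hs := Real.sqrt_nonneg (Real.log n)
    have e1 : Real.exp (-c1 * √(Real.log n)) ≤ Real.exp (-min c1 c2 * √(Real.log n)) :=
      Real.exp_le_exp.2 (by nlinarith [min_le_left c1 c2])
    have e2 : C1 ≤ max C1 C2 := le_max_left _ _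
    gcongr
  · obtain ⟨P, Q, V, hP, hQ, h1, h2, hV, hb⟩ := hl n hn
    refine ⟨P, Q, hP, hQ, h1, h2, le_trans ?_ (hb.trans ?_)⟩
    · have hs := Real.sqrt_nonneg (Real.log n)
      have e1 : Real.exp (-max C1 C2 * √(Real.log n)) ≤ Real.exp (-C2 * √(Real.log n)) :=
        Real.exp_le_exp.2 (by nlinarith [le_max_right C1 C2])
      have e2 : min c1 c2 ≤ c2 := min_le_right _ _
      gcongr
    · have hf := (hu n hn P Q hP hQ h1 h2).1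
      have : V.card ≤ (comps P Q).ncard := by
        rw [← Set.ncard_coe_finset]
        exact Set.ncard_le_ncard (fun v hv => hV v hv) hf
      exact_mod_cast this

end Pool.Agent.P.MP_d1c5d3_co.CM
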