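import Pool.Agent.P.MP_d1c5d3_co.CM.Iface

/-! Step DET. -/

set_option autoImplicit false

namespace Pool.Agent.P.MP_d1c5d3_co.CM

open Finset

lemma det_one (x y : Pt) : |dt x y| ≤ 2 * nm x * nm y := by
  obtain ⟨h1, h2⟩ := (nm_le x _).1 le_rfl
  obtain ⟨h3, h4⟩ := (nm_le y _).1 le_rfl
  have h5 := abs_sub (x.1 * y.2) (x.2 * y.1)
  rw [abs_mul, abs_mul] at h5
  have h6 := mul_le_mul h1 h4 (abs_nonneg _) (nm_nonneg _)
  have h7 := mul_le_mul h2 h3 (abs_nonneg _) (nm_nonneg _)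
  unfold dt
  linarith

lemma det_two {A B C u x y ρ : ℤ} (h0 : 0 < ρ) (hu : |u| = ρ) (hx : |x| ≤ ρ) (hy : |y| ≤ ρ)
    (e : A * u = B * x + C * y) : |A| ≤ |B| + |C| := by
  have h1 := abs_add_le (B * x) (C * y)
  rw [← e, abs_mul, abs_mul, abs_mul, hu] at h1
  have h2 := mul_le_mul_of_nonneg_left hx (abs_nonneg B)
  have h3 := mul_le_mul_of_nonneg_left hy (abs_nonneg C)
  exact le_of_mul_le_mul_right (by linarith) h0

lemma det_sg {A B E u v z ρ D : ℤ} (h0 : 0 < ρ) (hv : ρ < 2 * |v|) (hz : |z| ≤ ρ) (hE : |E| ≤ D)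
    (hB : 4 * D < |B|) (e : A * u = B * v + E * z) : 0 < A * u * (B * v) := by
  have hD : 0 ≤ D := (abs_nonneg _).trans hE
  have h1 : |E * z| ≤ D * ρ := by
    rw [abs_mul]
    exact mul_le_mul hE hz (abs_nonneg _) hD
  have h2 : D * ρ < |B * v| := by
    rw [abs_mul]
    nlinarith [mul_le_mul_of_nonneg_left hv.le (abs_nonneg B), mul_lt_mul_of_pos_right hB h0,
      mul_nonneg hD h0.le]
  rw [e]
  obtain ⟨h3, h4⟩ := abs_lt.1 (h1.trans_lt h2)
  rcases abs_cases (B * v) with h | h <;> nlinarith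

lemma det_half {a b a' b' ρ D : ℤ} (h0 : 0 < ρ) (ha : |a| = ρ) (hb : |b| ≤ ρ)
    (h : |a'| = ρ ∨ |b'| = ρ) (hD : |a * b' - b * a'| ≤ D) (h2 : 4 * D < 2 * ρ * ρ) :
    ρ < 2 * |a'| := by
  rcases h with h | h
  · omega
  · have h1 := abs_add_le (a * b' - b * a') (b * a')
    rw [sub_add_cancel, abs_mul, abs_mul, ha, h] at h1
    have h3 := mul_le_mul_of_nonneg_right hb (abs_nonneg a')
    exact lt_of_mul_lt_mul_left (a := ρ) (by linarith) h0.le

lemma det_fin {A A' B B' u v : ℤ} (h1 : 0 < A * u * (B * v)) (h2 : 0 < A' * u * (B' * v)) :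
    B * B' < 0 ↔ A * A' < 0 := by
  have h3 : 0 < B * B' * (A * A') * (u * v) ^ 2 := by
    have := mul_pos h1 h2
    linarith [show A * u * (B * v) * (A' * u * (B' * v)) = B * B' * (A * A') * (u * v) ^ 2 by ring]
  have h4 : 0 < B * B' * (A * A') :=
    lt_of_mul_lt_mul_right (a := (u * v) ^ 2) (by rwa [zero_mul]) (sq_nonneg _)
  rcases pos_and_pos_or_neg_and_neg_of_mul_pos h4 with h | h <;> omega

lemma det_ch {u : Pt} {ρ : ℤ} (h : nm u = ρ) : |u.1| = ρ ∨ |u.2| = ρ :=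
  (max_choice |u.1| |u.2|).imp (fun e => e.symm.trans h) fun e => e.symm.trans h

theorem p_DET :
    S_DET := by
  refine ⟨det_one, fun u x y ρ h0 hu hx hy => ?_, fun u u' y z ρ D h0 hu hu' hy hz hD h1 h2 => ?_⟩
  · rw [nm_le] at hx hy
    rcases det_ch hu with h | h
    · exact det_two h0 h hx.1 hy.1 (by unfold dt; ring)
    · exact det_two h0 h hx.2 hy.2 (by unfold dt; ring)
  · have h3 : 4 * D < 2 * ρ * ρ := by
      have := det_one y u
      rw [hu] at this
      nlinarith [mul_le_mul_of_nonneg_right hy h0.le]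
    have hb := (nm_le u _).1 hu.le
    rw [nm_le] at hy hz
    rcases det_ch hu with h | h
    · have hv := det_half h0 h hb.2 (det_ch hu') hD h3
      exact det_fin (u := u.1) (det_sg h0 hv hy.1 hD h1 (by unfold dt; ring))
        (det_sg h0 hv hz.1 hD h2 (by unfold dt; ring))
    · have hv := det_half h0 h hb.1 (det_ch hu').symm (by rwa [abs_sub_comm]) h3
      exact det_fin (u := u.2) (det_sg h0 hv hy.2 hD h1 (by unfold dt; ring))
        (det_sg h0 hv hz.2 hD h2 (by unfold dt; ring))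

end Pool.Agent.P.MP_d1c5d3_co.CM
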