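import Pool.Agent.P.MP_d1c5d3_co.CM.Iface

/-! Step FILL. -/

set_option autoImplicit false

namespace Pool.Agent.P.MP_d1c5d3_co.CM

open Finset

lemma fill_line (g : ℤ → ℤ) (r : ℤ) (h : ∀ t, |t| ≤ r → g (t + 1) = g t) (t : ℤ) :
    |t| ≤ r → g t = g 0 := by
  induction t using Int.induction_on with
  | zero => exact fun _ => rfl
  | succ i ih =>
    intro e
    have e' : |(i : ℤ)| ≤ r := by rw [abs_le] at e ⊢; omega
    rw [h _ e', ih e']
  | pred i ih =>
    intro e
    have e' : |-(i : ℤ)| ≤ r := by rw [abs_le] at e ⊢; omega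
    rw [← h _ e, sub_add_cancel, ih e']

lemma fill_ball (f : Pt → ℤ) (c : Pt) (r : ℤ)
    (h : ∀ x d, nm (x - c) ≤ r → (d = (1, 0) ∨ d = (0, 1)) → f (x + d) = f x) (z : Pt)
    (hz : nm (z - c) ≤ r) : f z = f c := by
  obtain ⟨h1, h2⟩ := (nm_le _ _).1 hz
  have h0 : |(0 : ℤ)| ≤ r := by simpa using (abs_nonneg _).trans h1
  have a1 := fill_line (fun t => f (c + (t, (z - c).2))) r (fun t ht => by
    rw [← h (c + (t, (z - c).2)) (1, 0) (by rw [add_sub_cancel_left, nm_le]; exact ⟨ht, h2⟩)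
      (.inl rfl)]
    simp [add_assoc]) _ h1
  have a2 := fill_line (fun t => f (c + (0, t))) r (fun t ht => by
    rw [← h (c + (0, t)) (0, 1) (by rw [add_sub_cancel_left, nm_le]; exact ⟨h0, ht⟩) (.inr rfl)]
    simp [add_assoc]) _ h2
  simp only [Prod.mk.eta, add_sub_cancel, Prod.mk_zero_zero, add_zero] at a1 a2
  exact a1.trans a2

lemma fill_wk {a : ℕ → Pt} (h : Wk a) (c : Pt) : Wk (fun i => a i + c) ∧ Wk fun i => c + a i :=
  ⟨fun i => by simpa using h i, fun i => by simpa using h i⟩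

theorem p_FILL (hSHIFT : S_SHIFT) (hSUPP : S_SUPP) (hCOS : S_COS) (hNBH : S_NBH) :
    S_FILL := by
  intro a b m n r ha hb hr
  obtain ⟨A, hA, hc⟩ := hCOS a b m n ha hb
  have b1 := hNBH _ m (r + 1) (fill_wk ha (b 0)).1 (by omega)
  have b2 := hNBH _ m (r + 1) (fill_wk ha (b n)).1 (by omega)
  have b3 := hNBH _ n (r + 1) (fill_wk hb (a 0)).2 (by omega)
  have b4 := hNBH _ n (r + 1) (fill_wk hb (a m)).2 (by omega)
  set N1 := nb ((range (m + 1)).image fun i => a i + b 0) (r + 1) with e1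
  set N2 := nb ((range (m + 1)).image fun i => a i + b n) (r + 1) with e2
  set N3 := nb ((range (n + 1)).image fun i => a 0 + b i) (r + 1) with e3
  set N4 := nb ((range (n + 1)).image fun i => a m + b i) (r + 1) with e4
  refine ⟨A \ (N1 ∪ N2 ∪ (N3 ∪ N4)), fun h hh z hz => ?_, ?_⟩
  · obtain ⟨h1, h2⟩ := mem_sdiff.1 hh
    have far : ∀ γ, Bd a b m n γ → ¬ nm (h - γ) ≤ r + 1 := by
      intro γ hγ k
      refine h2 ?_
      simp only [mem_union, e1, e2, e3, e4, mem_nb]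
      rcases hγ with ⟨i, hi, rfl | rfl⟩ | ⟨i, hi, rfl | rfl⟩
      · exact .inl (.inl ⟨_, mem_image.2 ⟨i, mem_range.2 (by omega), rfl⟩, k⟩)
      · exact .inl (.inr ⟨_, mem_image.2 ⟨i, mem_range.2 (by omega), rfl⟩, k⟩)
      · exact .inr (.inl ⟨_, mem_image.2 ⟨i, mem_range.2 (by omega), rfl⟩, k⟩)
      · exact .inr (.inr ⟨_, mem_image.2 ⟨i, mem_range.2 (by omega), rfl⟩, k⟩)
    refine (hSUPP a b m n ha hb).1 z ?_
    rw [fill_ball (wn a b m n) h r (fun x d hx hd => ?_) z hz]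
    · exact hA h h1
    · have := hSHIFT a b m n (fun z => if z = x then 1 else 0) d ha hb hd
        (.inr fun γ y hγ hy => if_neg fun e => far γ hγ (by
          have := nm_tri h y γ
          rw [nm_sub_comm, ← e] at hx
          omega))
      simpa only [wn, sub_eq_iff_eq_add] using this
  · have c1 := card_union_le (N1 ∪ N2) (N3 ∪ N4)
    have c2 := card_union_le N1 N2
    have c3 := card_union_le N3 N4
    have c4 := card_le_card_sdiff_add_card (s := A) (t := N1 ∪ N2 ∪ (N3 ∪ N4))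
    have c5 : (A.card : ℤ) ≤ (A \ (N1 ∪ N2 ∪ (N3 ∪ N4))).card + (N1.card + N2.card + N3.card +
      N4.card) := by exact_mod_cast (by omega)
    linarith

end Pool.Agent.P.MP_d1c5d3_co.CM
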