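import Pool.Agent.P.MP_d1c5d3_co.CM.Iface

/-! Step LOW. -/

set_option autoImplicit false

namespace Pool.Agent.P.MP_d1c5d3_co.CM

open Finset

lemma low_base (hCB : S_CB) (N : ℕ) :
    St ((range (N + 1)).image fun i : ℕ => ((0 : ℤ), (i : ℤ)))
      ((range (N + 1)).image fun i : ℕ => ((0 : ℤ), (i : ℤ)))
      ((range (N + 1)).image fun i : ℕ => ((1 : ℤ), (i : ℤ))) 1 ((N + 1 : ℕ) : ℤ) := by
  have hmem : ∀ (c : ℤ) (p : Pt), p ∈ ((range (N + 1)).image fun i : ℕ => (c, (i : ℤ))) →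
      ∃ i : ℕ, i < N + 1 ∧ p = (c, (i : ℤ)) := by
    intro c p hp
    obtain ⟨i, hi, rfl⟩ := mem_image.1 hp
    exact ⟨i, mem_range.1 hi, rfl⟩
  have hin : ∀ (c : ℤ) (i : ℕ), i < N + 1 →
      (c, (i : ℤ)) ∈ ((range (N + 1)).image fun i : ℕ => (c, (i : ℤ))) := by
    intro c i hi
    exact mem_image.2 ⟨i, mem_range.2 hi, rfl⟩
  have hb : ∀ (c : ℤ), |c| ≤ 1 → ∀ p ∈ ((range (N + 1)).image fun i : ℕ => (c, (i : ℤ))),
      |p.1| ≤ 1 ∧ |p.2| ≤ ((N + 1 : ℕ) : ℤ) := by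
    intro c hc p hp
    obtain ⟨i, hi, rfl⟩ := hmem c p hp
    refine ⟨hc, ?_⟩
    show |(i : ℤ)| ≤ _
    rw [abs_of_nonneg (Int.natCast_nonneg i)]
    exact_mod_cast hi.le
  refine ⟨hCB.2.1 N, hCB.2.1 N, hb 0 (by simp), hb 0 (by simp), hb 1 (by simp), ?_, ?_, ?_⟩
  · intro v hv
    obtain ⟨y, hy, rfl⟩ := hmem 1 v hv
    refine ⟨?_, (0, (y : ℤ)), hin 0 y hy, (0, ((0 : ℕ) : ℤ)), hin 0 0 (Nat.succ_pos N), ?_⟩
    · intro p hp q hq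
      obtain ⟨i, -, rfl⟩ := hmem 0 p hp
      obtain ⟨j, -, rfl⟩ := hmem 0 q hq
      intro h
      have := congrArg Prod.fst h
      simp at this
    · simp
  · refine ⟨(0, ((0 : ℕ) : ℤ)), hin 0 0 (Nat.succ_pos N), ?_⟩
    intro v hv q hq
    obtain ⟨y, -, rfl⟩ := hmem 1 v hv
    obtain ⟨j, -, rfl⟩ := hmem 0 q hq
    simp
  · refine ⟨(0, ((0 : ℕ) : ℤ)), hin 0 0 (Nat.succ_pos N), ?_⟩
    intro v hv p hp
    obtain ⟨y, -, rfl⟩ := hmem 1 v hv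
    obtain ⟨j, -, rfl⟩ := hmem 0 p hp
    simp

lemma low_card (c : ℤ) (n : ℕ) :
    ((range n).image fun i : ℕ => (c, (i : ℤ))).card = n := by
  rw [card_image_of_injective _ (fun i j h => by
    have : (i : ℤ) = j := congrArg Prod.snd h
    exact_mod_cast this), card_range]

lemma low_ar (m X a b p p' : ℤ) (hm : 1 ≤ m) (hX : 1 ≤ X) (ha : a ≤ X) (hb : b ≤ X * m)
    (hp : p ≤ X * (4 * m)) (h : p' ≤ m * (p + 3 * b + 2) + m ^ 2 * (3 * a + 1) + 1) :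
    p' ≤ X * (4 * m) * (4 * m) := by
  have h1 : m * (p + 3 * b + 2) ≤ m * (X * (4 * m) + 3 * (X * m) + 2) :=
    mul_le_mul_of_nonneg_left (by linarith) (by linarith)
  have h2 : m ^ 2 * (3 * a + 1) ≤ m ^ 2 * (4 * X) :=
    mul_le_mul_of_nonneg_left (by linarith) (by positivity)
  have h3 : m ≤ m ^ 2 := by nlinarith
  have h4 : m ^ 2 ≤ m ^ 2 * X := by nlinarith [sq_nonneg m]
  nlinarith

lemma low_ind (hCB : S_CB) (hCOMB : S_COMB) (M : ℕ) (hM : 1 ≤ M) (k : ℕ) :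
    ∃ (P Q V : Finset Pt) (a b : ℤ), St P Q V a b ∧ a ≤ (4 * (M : ℤ)) ^ k ∧
      b ≤ (4 * (M : ℤ)) ^ k * M ∧ (P.card : ℤ) ≤ (4 * (M : ℤ)) ^ (k + 1) ∧
      (Q.card : ℤ) ≤ (4 * (M : ℤ)) ^ (k + 1) ∧ V.card = M ^ (2 * k + 1) := by
  have hm : (1 : ℤ) ≤ M := by exact_mod_cast hM
  induction k with
  | zero =>
    obtain ⟨N, rfl⟩ : ∃ N, M = N + 1 := ⟨M - 1, by omega⟩
    refine ⟨_, _, _, _, _, low_base hCB N, by simp, by simp, ?_, ?_, ?_⟩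
    · rw [low_card]; simp only [zero_add, pow_one]; linarith
    · rw [low_card]; simp only [zero_add, pow_one]; linarith
    · rw [low_card]; simp
  | succ k ih =>
    obtain ⟨P, Q, V, a, b, hS, ha, hb, hP, hQ, hV⟩ := ih
    obtain ⟨P', Q', V', hS', hV', hP', hQ'⟩ := hCOMB P Q V a b M hS hM
    have hX : (1 : ℤ) ≤ (4 * (M : ℤ)) ^ k := one_le_pow₀ (by linarith)
    rw [pow_succ] at hP hQ
    refine ⟨P', Q', V', _, _, hS', ?_, ?_, ?_, ?_, ?_⟩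
    · rw [pow_succ]
      nlinarith
    · rw [pow_succ (4 * (M : ℤ))]
      have h2 : (M : ℤ) ^ 2 * (3 * a + 1) ≤ (M : ℤ) ^ 2 * (4 * (4 * (M : ℤ)) ^ k) :=
        mul_le_mul_of_nonneg_left (by linarith) (by positivity)
      nlinarith
    · rw [pow_succ, pow_succ]
      exact low_ar _ _ _ _ _ _ hm hX ha hb hP hP'
    · rw [pow_succ, pow_succ]
      exact low_ar _ _ _ _ _ _ hm hX ha hb hQ hQ'
    · rw [hV', hV]
      ring

theorem p_LOW (hCB : S_CB) (hCOMB : S_COMB) :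
    S_LOW := by
  intro M k hM
  obtain ⟨P, Q, V, a, b, hS, -, -, hP, hQ, hV⟩ := low_ind hCB hCOMB M hM k
  refine ⟨P, Q, V, hS.1, hS.2.1, by exact_mod_cast hP, by exact_mod_cast hQ,
    hS.2.2.2.2.2.1, hV.ge⟩

end Pool.Agent.P.MP_d1c5d3_co.CM
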